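import Pool.Agent.H55.BP.Lin

/-!
Common zeros of `U(k) = g(z)` and of an auxiliary polynomial of small degree in `k`.
-/

set_option autoImplicit false

open Polynomial Finset Matrix

namespace Pool.Agent.H55.BP

/-- the polynomial `U(Y) - g(X)` over `ℚ[X]` -/
noncomputable def WW (U g : ℤ[X]) : ℚ[X][X] :=
  (U.map (Int.castRingHom ℚ)).map C - C (g.map (Int.castRingHom ℚ))

/-- `U(Y) - g(X)` has no monic factor of `Y`-degree between `1` and `q - 1` -/
def NoSmall (U g : ℤ[X]) (q : ℕ) : Prop :=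
  ∀ D : ℚ[X][X], D.Monic → 1 ≤ D.natDegree → D.natDegree < q → ¬ D ∣ WW U g

/-- the auxiliary polynomial -/
noncomputable def GG (q : ℕ) {s : ℕ} (c : Fin s → ℚ) : ℚ[X][X] :=
  ∑ j : Fin s, C (C (c j) * X ^ ((j : ℕ) / q)) * X ^ ((j : ℕ) % q)

lemma natDegree_det_le {n D : ℕ} (M : Matrix (Fin n) (Fin n) ℚ[X])
    (h : ∀ i j, (M i j).natDegree ≤ D) : M.det.natDegree ≤ n * D := by
  rw [Matrix.det_apply]
  apply natDegree_sum_le_of_forall_le
  intro σ _
  have h1 : (Equiv.Perm.sign σ • ∏ i, M (σ i) i).natDegree = (∏ i, M (σ i) i).natDegree := by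
    rcases Int.units_eq_one_or (Equiv.Perm.sign σ) with h | h
    · rw [h, one_smul]
    · rw [h, Units.neg_smul, one_smul, natDegree_neg]
  rw [h1]
  refine (natDegree_prod_le _ _).trans ?_
  refine (Finset.sum_le_card_nsmul _ _ D fun i _ => h _ _).trans ?_
  simp

lemma WW_coeff (U g : ℤ[X]) (b : ℕ) : (WW U g).coeff b
    = C ((U.coeff b : ℤ) : ℚ) - (if b = 0 then g.map (Int.castRingHom ℚ) else 0) := by
  rw [WW, coeff_sub, coeff_map, coeff_map, coeff_C]
  simp

lemma WW_natDegree {U g : ℤ[X]} {d : ℕ} (hd : 1 ≤ d) (hU : U.natDegree = d) :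
    (WW U g).natDegree = d ∧ (WW U g).coeff d = C ((U.leadingCoeff : ℤ) : ℚ) := by
  have h0 : (WW U g).coeff d = C ((U.leadingCoeff : ℤ) : ℚ) := by
    rw [WW_coeff, if_neg (by omega), sub_zero, leadingCoeff, hU]
  have hne : U.leadingCoeff ≠ 0 := by
    rw [Ne, leadingCoeff_eq_zero]
    rintro rfl
    simp at hU
    omega
  refine ⟨natDegree_eq_of_le_of_coeff_ne_zero ?_ ?_, h0⟩
  · rw [WW]
    refine (natDegree_sub_le _ _).trans (max_le ?_ (by rw [natDegree_C]; omega))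
    exact (natDegree_map_le).trans ((natDegree_map_le).trans hU.le)
  · rw [h0, Ne, C_eq_zero]
    exact_mod_cast hne

lemma WW_coeff_natDegree {U g : ℤ[X]} {e : ℕ} (hg : g.natDegree ≤ e) (b : ℕ) :
    ((WW U g).coeff b).natDegree ≤ e := by
  rw [WW_coeff]
  refine (natDegree_sub_le _ _).trans (max_le (by rw [natDegree_C]; omega) ?_)
  split_ifs
  · exact (natDegree_map_le).trans hg
  · simp

section

variable {q s : ℕ} (c : Fin s → ℚ)

lemma GG_coeff (hq : 0 < q) (b : ℕ) : (GG q c).coeff b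
    = ∑ j : Fin s, if (j : ℕ) % q = b then C (c j) * X ^ ((j : ℕ) / q) else 0 := by
  rw [GG, finsetSum_coeff]
  apply Finset.sum_congr rfl
  intro j _
  rw [coeff_C_mul, coeff_X_pow]
  by_cases h : (j : ℕ) % q = b
  · rw [if_pos h, if_pos h.symm, mul_one]
  · rw [if_neg h, if_neg (fun h' => h h'.symm), mul_zero]

lemma GG_coeff_coeff (hq : 0 < q) (j : Fin s) :
    ((GG q c).coeff ((j : ℕ) % q)).coeff ((j : ℕ) / q) = c j := by
  rw [GG_coeff c hq, finsetSum_coeff, Finset.sum_eq_single j]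
  · rw [if_pos rfl, coeff_C_mul, coeff_X_pow, if_pos rfl, mul_one]
  · intro i _ hij
    split_ifs with h
    · rw [coeff_C_mul, coeff_X_pow, if_neg, mul_zero]
      intro h'
      apply hij
      apply Fin.ext
      rw [← Nat.div_add_mod (i : ℕ) q, ← Nat.div_add_mod (j : ℕ) q, h, h']
    · simp
  · intro h; exact absurd (Finset.mem_univ j) h

lemma GG_ne_zero (hq : 0 < q) (hc : c ≠ 0) : GG q c ≠ 0 := by
  intro h
  apply hc
  funext j
  rw [← GG_coeff_coeff c hq j, h]
  simp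

lemma GG_natDegree (hq : 0 < q) : (GG q c).natDegree ≤ q - 1 := by
  rw [natDegree_le_iff_coeff_eq_zero]
  intro b hb
  rw [GG_coeff c hq]
  apply Finset.sum_eq_zero
  intro j _
  have := Nat.mod_lt (j : ℕ) hq
  rw [if_neg (by omega)]

lemma GG_coeff_natDegree (hq : 0 < q) {A : ℕ} (hs : s = (A + 1) * q) (b : ℕ) :
    ((GG q c).coeff b).natDegree ≤ A := by
  rw [GG_coeff c hq]
  apply natDegree_sum_le_of_forall_le
  intro j _
  split_ifs
  · refine (natDegree_C_mul_le _ _).trans ?_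
    rw [natDegree_X_pow]
    have h1 : (j : ℕ) < (A + 1) * q := by rw [← hs]; exact j.2
    have h2 := (Nat.div_lt_iff_lt_mul hq).2 h1
    omega
  · simp

lemma GG_eval (z k : ℚ) :
    ((GG q c).eval (C k)).eval z = ∑ j : Fin s, c j * (z ^ ((j : ℕ) / q) * k ^ ((j : ℕ) % q)) := by
  rw [GG, eval_finsetSum, eval_finsetSum]
  apply Finset.sum_congr rfl
  intro j _
  simp only [eval_mul, eval_C, eval_pow, eval_X]
  ring

end

lemma WW_eval (U g : ℤ[X]) (z k : ℤ) :
    ((WW U g).eval (C (k : ℚ))).eval (z : ℚ) = ((U.eval k - g.eval z : ℤ) : ℚ) := by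
  have h1 : ((U.map (Int.castRingHom ℚ)).map C).eval (C (k : ℚ))
      = C ((U.map (Int.castRingHom ℚ)).eval (k : ℚ)) := by
    rw [eval_map, eval₂_hom]
  rw [WW, eval_sub, h1, eval_C, eval_sub, eval_C]
  have h2 : ∀ (P : ℤ[X]) (n : ℤ), (P.map (Int.castRingHom ℚ)).eval (n : ℚ) = ((P.eval n : ℤ) : ℚ) := by
    intro P n
    have := eval_intCast_map (Int.castRingHom ℚ) P n
    simpa using this
  rw [h2, h2]
  push_cast
  ring

/-- the auxiliary polynomial is coprime to `U(Y) - g(X)` over the field `ℚ(X)` -/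
lemma coprime_frac {U g : ℤ[X]} {d q : ℕ} (hd : 1 ≤ d) (hU : U.natDegree = d) (hN : NoSmall U g q)
    {G : ℚ[X][X]} (hG : G ≠ 0) (hGd : G.natDegree < q) :
    IsCoprime ((WW U g).map (algebraMap ℚ[X] (FractionRing ℚ[X])))
      (G.map (algebraMap ℚ[X] (FractionRing ℚ[X]))) := by
  obtain ⟨h1, h2⟩ := WW_natDegree (g := g) hd hU
  have hinj : Function.Injective (algebraMap ℚ[X] (FractionRing ℚ[X])) :=
    IsFractionRing.injective _ _
  have hne : U.leadingCoeff ≠ 0 := by
    rw [Ne, leadingCoeff_eq_zero]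
    rintro rfl
    simp at hU
    omega
  have huQ : ((U.leadingCoeff : ℤ) : ℚ) ≠ 0 := by exact_mod_cast hne
  -- the monic version
  obtain ⟨V, hV⟩ : ∃ V : ℚ[X][X], V = C (C ((U.leadingCoeff : ℚ)⁻¹)) * WW U g := ⟨_, rfl⟩
  have hVm : V.Monic := by
    apply monic_of_natDegree_le_of_coeff_eq_one d
    · rw [hV]
      exact (natDegree_C_mul_le _ _).trans h1.le
    · rw [hV, coeff_C_mul, h2, ← C_mul, inv_mul_cancel₀ huQ, C_1]
  have hWV : WW U g = C (C (U.leadingCoeff : ℚ)) * V := by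
    rw [hV, ← mul_assoc, ← C_mul, ← C_mul, mul_inv_cancel₀ huQ, C_1, C_1, one_mul]
  by_contra hcop
  obtain ⟨Dk, hDk1, hDk2, hDk3⟩ : ∃ Dk : (FractionRing ℚ[X])[X], ¬ IsUnit Dk ∧
      Dk ∣ (WW U g).map (algebraMap ℚ[X] (FractionRing ℚ[X])) ∧
      Dk ∣ G.map (algebraMap ℚ[X] (FractionRing ℚ[X])) := by
    classical
    refine ⟨EuclideanDomain.gcd ((WW U g).map (algebraMap ℚ[X] (FractionRing ℚ[X])))
      (G.map (algebraMap ℚ[X] (FractionRing ℚ[X]))), ?_, EuclideanDomain.gcd_dvd_left _ _,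
      EuclideanDomain.gcd_dvd_right _ _⟩
    intro hu
    exact hcop (EuclideanDomain.gcd_isUnit_iff.1 hu)
  have hGk : G.map (algebraMap ℚ[X] (FractionRing ℚ[X])) ≠ 0 := by
    rw [Ne, Polynomial.map_eq_zero_iff hinj]; exact hG
  have hDk0 : Dk ≠ 0 := ne_zero_of_dvd_ne_zero hGk hDk3
  have hDV : Dk ∣ V.map (algebraMap ℚ[X] (FractionRing ℚ[X])) := by
    rw [hV, Polynomial.map_mul]
    exact dvd_mul_of_dvd_right hDk2 _
  obtain ⟨D, hD⟩ := IsIntegrallyClosed.eq_map_mul_C_of_dvd (FractionRing ℚ[X]) hVm hDV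
  have hlc : Dk.leadingCoeff ≠ 0 := leadingCoeff_ne_zero.2 hDk0
  have hDmap : D.map (algebraMap ℚ[X] (FractionRing ℚ[X])) = Dk * C Dk.leadingCoeff⁻¹ := by
    have e1 : D.map (algebraMap ℚ[X] (FractionRing ℚ[X])) * C Dk.leadingCoeff * C Dk.leadingCoeff⁻¹
        = Dk * C Dk.leadingCoeff⁻¹ := by rw [hD]
    rw [mul_assoc, ← C_mul, mul_inv_cancel₀ hlc, C_1, mul_one] at e1
    exact e1
  have hDm : D.Monic := by
    have h3 : (D.map (algebraMap ℚ[X] (FractionRing ℚ[X]))).Monic := by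
      rw [hDmap]
      exact monic_mul_leadingCoeff_inv hDk0
    exact hinj.monic_map_iff.2 h3
  have hdeg : D.natDegree = Dk.natDegree := by
    rw [← natDegree_map_eq_of_injective hinj D, hDmap, natDegree_mul_C (inv_ne_zero hlc)]
  refine hN D hDm ?_ ?_ ?_
  · rw [hdeg]
    by_contra hcon
    apply hDk1
    rw [isUnit_iff_degree_eq_zero, degree_eq_natDegree hDk0]
    have : Dk.natDegree = 0 := by omega
    rw [this]; rfl
  · rw [hdeg]
    calc Dk.natDegree ≤ (G.map (algebraMap ℚ[X] (FractionRing ℚ[X]))).natDegree :=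
          natDegree_le_of_dvd hDk3 hGk
      _ ≤ G.natDegree := natDegree_map_le
      _ < q := hGd
  · rw [hWV]
    apply dvd_mul_of_dvd_right
    rw [← map_dvd_map _ hinj hDm, hDmap]
    obtain ⟨w, hw⟩ := hDV
    refine ⟨C Dk.leadingCoeff * w, ?_⟩
    rw [hw]
    rw [show Dk * C Dk.leadingCoeff⁻¹ * (C Dk.leadingCoeff * w)
      = Dk * (C Dk.leadingCoeff⁻¹ * C Dk.leadingCoeff) * w by ring, ← C_mul, inv_mul_cancel₀ hlc,
      C_1, mul_one]

/-- **Bezout**: few common zeros. -/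
theorem bezout {U g : ℤ[X]} {d e q A s : ℕ} (hd : 1 ≤ d) (hU : U.natDegree = d)
    (hg : g.natDegree ≤ e) (hq : 1 ≤ q) (hN : NoSmall U g q) (hs : s = (A + 1) * q)
    {c : Fin s → ℚ} (hc : c ≠ 0) (S : Finset ℤ)
    (hS : ∀ z ∈ S, ∃ k : ℤ, U.eval k = g.eval z ∧
      ∑ j : Fin s, c j * ((z : ℚ) ^ ((j : ℕ) / q) * (k : ℚ) ^ ((j : ℕ) % q)) = 0) :
    S.card ≤ (d + (q - 1)) * max e A := by
  classical
  obtain ⟨h1, h2⟩ := WW_natDegree (g := g) hd hU
  have hinj : Function.Injective (algebraMap ℚ[X] (FractionRing ℚ[X])) :=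
    IsFractionRing.injective _ _
  obtain ⟨G, hG⟩ : ∃ G, G = GG q c := ⟨_, rfl⟩
  have hG0 : G ≠ 0 := by rw [hG]; exact GG_ne_zero c (by omega) hc
  have hGd : G.natDegree ≤ q - 1 := by rw [hG]; exact GG_natDegree c (by omega)
  obtain ⟨R, hR⟩ : ∃ R, R = resultant (WW U g) G d (q - 1) := ⟨_, rfl⟩
  have hR0 : R ≠ 0 := by
    intro h0
    have h3 : resultant ((WW U g).map (algebraMap ℚ[X] (FractionRing ℚ[X])))
        (G.map (algebraMap ℚ[X] (FractionRing ℚ[X]))) d (q - 1) = 0 := by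
      rw [resultant_map_map, ← hR, h0, map_zero]
    obtain ⟨m, hm⟩ : ∃ m, q - 1 = (G.map (algebraMap ℚ[X] (FractionRing ℚ[X]))).natDegree + m := by
      have := (natDegree_map_le (p := G) (f := algebraMap ℚ[X] (FractionRing ℚ[X]))).trans hGd
      exact ⟨_, (Nat.add_sub_cancel' this).symm⟩
    rw [hm, resultant_add_right_deg _ _ _ _ _ le_rfl] at h3
    have h4 : ((WW U g).map (algebraMap ℚ[X] (FractionRing ℚ[X]))).coeff d ≠ 0 := by
      rw [coeff_map, h2, Ne, map_eq_zero_iff _ hinj, C_eq_zero]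
      have : U.leadingCoeff ≠ 0 := by
        rw [Ne, leadingCoeff_eq_zero]
        rintro rfl
        simp at hU
        omega
      exact_mod_cast this
    have h5 := (mul_eq_zero.1 h3).resolve_left (pow_ne_zero _ h4)
    have h6 : d = ((WW U g).map (algebraMap ℚ[X] (FractionRing ℚ[X]))).natDegree := by
      rw [natDegree_map_eq_of_injective hinj, h1]
    rw [h6] at h5
    have h7 := (resultant_eq_zero_iff.1 h5).2
    exact h7 (coprime_frac hd hU hN hG0 (by omega))
  have hRd : R.natDegree ≤ (d + (q - 1)) * max e A := by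
    rw [hR, resultant]
    apply natDegree_det_le
    intro i j
    rw [sylvester, Matrix.of_apply]
    refine Fin.addCases (fun j₁ => ?_) (fun j₁ => ?_) j
    · rw [Fin.addCases_left]
      split_ifs
      · rw [hG]
        exact (GG_coeff_natDegree c (by omega) hs _).trans (le_max_right _ _)
      · simp
    · rw [Fin.addCases_right]
      split_ifs
      · exact (WW_coeff_natDegree hg _).trans (le_max_left _ _)
      · simp
  have hroot : ∀ z ∈ S, R.eval (z : ℚ) = 0 := by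
    intro z hz
    obtain ⟨k, hk1, hk2⟩ := hS z hz
    obtain ⟨P, Q, -, -, hPQ⟩ := exists_mul_add_mul_eq_C_resultant (WW U g) G (m := d) (n := q - 1)
      h1.le hGd (Or.inl (by omega))
    have h3 := congrArg (fun W => (W.eval (C (k : ℚ))).eval (z : ℚ)) hPQ
    simp only [eval_add, eval_mul, eval_C] at h3
    rw [← hR] at h3
    rw [← h3, WW_eval, hk1, hG, GG_eval, hk2]
    simp
  calc S.card = (S.image (fun z : ℤ => (z : ℚ))).card :=
        (Finset.card_image_of_injective _ Int.cast_injective).symm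
    _ ≤ R.roots.toFinset.card := by
        apply Finset.card_le_card
        intro x hx
        obtain ⟨z, hz, rfl⟩ := Finset.mem_image.1 hx
        rw [Multiset.mem_toFinset, mem_roots hR0]
        exact hroot z hz
    _ ≤ Multiset.card R.roots := Multiset.toFinset_card_le _
    _ ≤ R.natDegree := card_roots' R
    _ ≤ _ := hRd

end Pool.Agent.H55.BP
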