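import Pool.Agent.H55.BP.Bez

/-!
Counting the points whose residue class modulo `p` is nonsingular.
-/

set_option autoImplicit false

open Polynomial Finset Matrix

namespace Pool.Agent.H55.BP

variable {U g : ℤ[X]} {d e q A s : ℕ}

/-- few points in one class -/
lemma fiber_bound (hd : 1 ≤ d) (hU : U.natDegree = d) (hg : g.natDegree ≤ e) (hq : 1 ≤ q)
    (hN : NoSmall U g q) (hs : s = (A + 1) * q) {p : ℕ} (hp : p.Prime) {Z T : ℤ} {κ : ℤ → ℤ}
    (hsm : s.factorial * ∏ j : Fin s, (Z ^ ((j : ℕ) / q) * T ^ ((j : ℕ) % q))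
      < (p : ℤ) ^ (s.choose 2))
    (S : Finset ℤ) (h1 : ∀ z ∈ S, |z| ≤ Z) (h2 : ∀ z ∈ S, |κ z| ≤ T)
    (h3 : ∀ z ∈ S, U.eval (κ z) = g.eval z)
    (h4 : ∀ z ∈ S, ¬ (p : ℤ) ∣ U.derivative.eval (κ z))
    (h5 : ∀ z ∈ S, ∀ z' ∈ S, (p : ℤ) ∣ z - z') (h6 : ∀ z ∈ S, ∀ z' ∈ S, (p : ℤ) ∣ κ z - κ z') :
    S.card ≤ (d + (q - 1)) * max e A := by
  classical
  rcases S.eq_empty_or_nonempty with rfl | ⟨z₀, hz₀⟩
  · simp
  obtain ⟨c, hc, hrel⟩ := exists_relation (s := s) (S : Set ℤ)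
    (fun z j => ((z : ℚ) ^ ((j : ℕ) / q) * (κ z : ℚ) ^ ((j : ℕ) % q))) (by
      intro P hPinj hP
      have ha : ∃ a, (p : ℤ) ∣ a * U.derivative.eval (κ z₀) - 1 := by
        have hcop : IsCoprime (p : ℤ) (U.derivative.eval (κ z₀)) :=
          (Prime.coprime_iff_not_dvd (Nat.prime_iff_prime_int.1 hp)).2 (h4 z₀ hz₀)
        obtain ⟨u, v, huv⟩ := hcop
        refine ⟨v, -u, ?_⟩
        linear_combination huv
      have h7 := det_zero (s := s) (U := U) (g := g) (p := p) (k₀ := κ z₀) ha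
        (fun j => (j : ℕ) / q) (fun j => (j : ℕ) % q) P (fun i => κ (P i))
        (fun i => h6 _ (hP i) _ hz₀) (fun i j => h5 _ (hP i) _ (hP j)) (fun i => h3 _ (hP i))
        (Z := Z) (T := T) (fun i => h1 _ (hP i)) (fun i => h2 _ (hP i)) hsm
      have h8 : (Matrix.of fun (i j : Fin s) => ((P i : ℤ) : ℚ) ^ ((j : ℕ) / q) * ((κ (P i) : ℤ) : ℚ) ^ ((j : ℕ) % q)).det
          = (((Matrix.of fun (i j : Fin s) => P i ^ ((j : ℕ) / q) * κ (P i) ^ ((j : ℕ) % q)).det : ℤ) : ℚ) := by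
        have h9 := (Int.castRingHom ℚ).map_det
          (Matrix.of fun (i j : Fin s) => P i ^ ((j : ℕ) / q) * κ (P i) ^ ((j : ℕ) % q))
        rw [eq_intCast] at h9
        rw [h9]
        congr 1
        ext i j
        simp [RingHom.mapMatrix_apply]
      rw [h8, h7]
      simp)
  exact bezout hd hU hg hq hN hs hc S fun z hz => ⟨κ z, h3 z hz, hrel z hz⟩

/-- the number of points whose class modulo `p` is nonsingular -/
theorem class_bound (hd : 1 ≤ d) (hU : U.natDegree = d) (hg : g.natDegree ≤ e) (hq : 1 ≤ q)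
    (hN : NoSmall U g q) (hs : s = (A + 1) * q) {p : ℕ} (hp : p.Prime) {Z T : ℤ} {κ : ℤ → ℤ}
    (hsm : s.factorial * ∏ j : Fin s, (Z ^ ((j : ℕ) / q) * T ^ ((j : ℕ) % q))
      < (p : ℤ) ^ (s.choose 2))
    (S : Finset ℤ) (h1 : ∀ z ∈ S, |z| ≤ Z) (h2 : ∀ z ∈ S, |κ z| ≤ T)
    (h3 : ∀ z ∈ S, U.eval (κ z) = g.eval z)
    (h4 : ∀ z ∈ S, ¬ (p : ℤ) ∣ U.derivative.eval (κ z)) :
    S.card ≤ (d + (q - 1)) * max e A * (p * d) := by
  classical
  have : Fact p.Prime := ⟨hp⟩
  obtain ⟨f, hf⟩ : ∃ f : ℤ → ZMod p × ZMod p, f = fun z : ℤ => ((z : ZMod p), ((κ z : ℤ) : ZMod p)) := ⟨_, rfl⟩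
  have hfib : ∀ a ∈ S.image f, (S.filter fun x => f x = a).card ≤ (d + (q - 1)) * max e A := by
    intro a _
    have hmem : ∀ z ∈ S.filter fun x => f x = a, z ∈ S ∧ f z = a := fun z hz =>
      Finset.mem_filter.1 hz
    apply fiber_bound hd hU hg hq hN hs hp hsm
    · exact fun z hz => h1 z (hmem z hz).1
    · exact fun z hz => h2 z (hmem z hz).1
    · exact fun z hz => h3 z (hmem z hz).1
    · exact fun z hz => h4 z (hmem z hz).1
    · intro z hz z' hz'
      have e1 := (hmem z hz).2.trans (hmem z' hz').2.symm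
      rw [hf] at e1
      have e2 := (Prod.ext_iff.1 e1).1
      simp only at e2
      exact (ZMod.intCast_eq_intCast_iff_dvd_sub z' z p).1 e2.symm
    · intro z hz z' hz'
      have e1 := (hmem z hz).2.trans (hmem z' hz').2.symm
      rw [hf] at e1
      have e2 := (Prod.ext_iff.1 e1).2
      simp only at e2
      exact (ZMod.intCast_eq_intCast_iff_dvd_sub (κ z') (κ z) p).1 e2.symm
  refine (Finset.card_le_mul_card_image S _ hfib).trans (Nat.mul_le_mul_left _ ?_)
  obtain ⟨Ub, hUb⟩ : ∃ Ub : (ZMod p)[X], Ub = U.map (Int.castRingHom (ZMod p)) := ⟨_, rfl⟩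
  obtain ⟨gb, hgb⟩ : ∃ gb : (ZMod p)[X], gb = g.map (Int.castRingHom (ZMod p)) := ⟨_, rfl⟩
  have hev : ∀ (P : ℤ[X]) (n : ℤ), (P.map (Int.castRingHom (ZMod p))).eval (n : ZMod p)
      = ((P.eval n : ℤ) : ZMod p) := by
    intro P n
    simp
  calc (S.image f).card ≤ ((Finset.univ : Finset (ZMod p)).biUnion fun α =>
        ((Ub - C (gb.eval α)).roots.toFinset).image fun β => (α, β)).card := by
        apply Finset.card_le_card
        intro a ha
        obtain ⟨z, hz, rfl⟩ := Finset.mem_image.1 ha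
        rw [Finset.mem_biUnion]
        refine ⟨(z : ZMod p), Finset.mem_univ _, ?_⟩
        rw [Finset.mem_image]
        refine ⟨(κ z : ZMod p), ?_, by rw [hf]⟩
        rw [Multiset.mem_toFinset, mem_roots]
        · rw [IsRoot.def, eval_sub, eval_C, hUb, hgb, hev, hev, h3 z hz, sub_self]
        · intro h0
          apply h4 z hz
          have h5 : derivative Ub = 0 := by
            rw [sub_eq_zero.1 h0, derivative_C]
          have h6 : ((U.derivative.eval (κ z) : ℤ) : ZMod p) = 0 := by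
            rw [← hev, ← derivative_map, ← hUb, h5, eval_zero]
          exact (ZMod.intCast_zmod_eq_zero_iff_dvd _ _).1 h6
    _ ≤ ∑ α : ZMod p, (((Ub - C (gb.eval α)).roots.toFinset).image fun β => (α, β)).card :=
        Finset.card_biUnion_le
    _ ≤ ∑ _α : ZMod p, d := by
        apply Finset.sum_le_sum
        intro α _
        refine Finset.card_image_le.trans ((Multiset.toFinset_card_le _).trans
          ((card_roots' _).trans ?_))
        refine (natDegree_sub_le _ _).trans (max_le ?_ (by rw [natDegree_C]; omega))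
        rw [hUb]
        exact natDegree_map_le.trans hU.le
    _ = p * d := by simp [ZMod.card]

end Pool.Agent.H55.BP
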