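import Mathlib

/-!
The derivative of a polynomial with small values at many integers.
-/

set_option autoImplicit false

open Polynomial Finset

namespace Pool.Agent.H55.BP

lemma derivative_le {d : ℕ} {U : ℤ[X]} (hU : U.natDegree ≤ d) (t : Finset ℤ) (ht : t.card = d + 1)
    {L M : ℝ} (hL : 1 ≤ L) (hM : 0 ≤ M) (h1 : ∀ x ∈ t, |(x : ℝ)| ≤ L)
    (h2 : ∀ x ∈ t, |((U.eval x : ℤ) : ℝ)| ≤ M) {y : ℤ} (hy : |(y : ℝ)| ≤ L) :
    |((U.derivative.eval y : ℤ) : ℝ)| ≤ (d + 1) * M * (d * (2 * L) ^ d) := by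
  classical
  obtain ⟨V, hV⟩ : ∃ V : ℝ[X], V = U.map (Int.castRingHom ℝ) := ⟨_, rfl⟩
  have hev : ∀ (P : ℤ[X]) (n : ℤ), (P.map (Int.castRingHom ℝ)).eval (n : ℝ) = ((P.eval n : ℤ) : ℝ) := by
    intro P n
    simp
  have hinj : Set.InjOn (fun x : ℤ => (x : ℝ)) t := fun a _ b _ h => Int.cast_injective h
  have hVi : V = Lagrange.interpolate t (fun x : ℤ => (x : ℝ)) (fun x => ((U.eval x : ℤ) : ℝ)) := by
    apply Lagrange.eq_interpolate_of_eval_eq _ hinj
    · rw [ht]
      refine lt_of_le_of_lt degree_le_natDegree ?_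
      have : V.natDegree ≤ d := by rw [hV]; exact natDegree_map_le.trans hU
      exact_mod_cast Nat.lt_succ_of_le this
    · intro x _
      rw [hV, hev]
  have hder : ((U.derivative.eval y : ℤ) : ℝ) = V.derivative.eval (y : ℝ) := by
    rw [hV, derivative_map, hev]
  have hdiv : ∀ i ∈ t, ∀ j ∈ t.erase i, |(Lagrange.basisDivisor (i : ℝ) (j : ℝ)).eval (y : ℝ)| ≤ 2 * L ∧
      |(Lagrange.basisDivisor (i : ℝ) (j : ℝ)).derivative.eval (y : ℝ)| ≤ 1 := by
    intro i hi j hj
    have hij : i ≠ j := (Finset.mem_erase.1 hj).1.symm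
    have h3 : (1 : ℝ) ≤ |(i : ℝ) - j| := by
      have h4 : (1 : ℤ) ≤ |i - j| := Int.one_le_abs (sub_ne_zero.2 hij)
      exact_mod_cast h4
    have h5 : |((i : ℝ) - j)⁻¹| ≤ 1 := by
      rw [abs_inv]
      exact inv_le_one_of_one_le₀ h3
    constructor
    · rw [Lagrange.basisDivisor, eval_mul, eval_C, eval_sub, eval_X, eval_C, abs_mul]
      have h6 : |(y : ℝ) - j| ≤ 2 * L := by
        refine (abs_sub _ _).trans ?_
        have := h1 j (Finset.mem_erase.1 hj).2
        linarith
      calc |((i : ℝ) - j)⁻¹| * |(y : ℝ) - j| ≤ 1 * (2 * L) :=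
            mul_le_mul h5 h6 (abs_nonneg _) (by norm_num)
        _ = 2 * L := one_mul _
    · rw [Lagrange.basisDivisor, derivative_mul, derivative_C, zero_mul, zero_add, derivative_sub,
        derivative_X, derivative_C, sub_zero, mul_one, eval_C]
      exact h5
  have hbas : ∀ i ∈ t, |(Lagrange.basis t (fun x : ℤ => (x : ℝ)) i).derivative.eval (y : ℝ)|
      ≤ d * (2 * L) ^ d := by
    intro i hi
    have hc : (t.erase i).card = d := by rw [Finset.card_erase_of_mem hi, ht]; omega
    rw [Lagrange.basis, derivative_prod_finset, eval_finsetSum]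
    refine (Finset.abs_sum_le_sum_abs _ _).trans ?_
    refine (Finset.sum_le_card_nsmul _ _ ((2 * L) ^ d) ?_).trans ?_
    · intro j hj
      rw [eval_mul, abs_mul, eval_prod, Finset.abs_prod]
      have h3 : ∏ k ∈ (t.erase i).erase j, |(Lagrange.basisDivisor (i : ℝ) (k : ℝ)).eval (y : ℝ)|
          ≤ (2 * L) ^ d := by
        calc _ ≤ ∏ _k ∈ (t.erase i).erase j, (2 * L) :=
              Finset.prod_le_prod (fun _ _ => abs_nonneg _)
                (fun k hk => (hdiv i hi k (Finset.mem_of_mem_erase hk)).1)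
          _ = (2 * L) ^ ((t.erase i).erase j).card := by rw [Finset.prod_const]
          _ ≤ (2 * L) ^ d := by
              apply pow_le_pow_right₀ (by linarith)
              rw [← hc]
              exact Finset.card_le_card (Finset.erase_subset _ _)
      calc _ ≤ (2 * L) ^ d * 1 := mul_le_mul h3 (hdiv i hi j hj).2 (abs_nonneg _) (by positivity)
        _ = (2 * L) ^ d := mul_one _
    · rw [hc, nsmul_eq_mul]
  rw [hder, hVi, Lagrange.interpolate_apply, derivative_sum, eval_finsetSum]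
  refine (Finset.abs_sum_le_sum_abs _ _).trans ?_
  refine (Finset.sum_le_card_nsmul _ _ (M * (d * (2 * L) ^ d)) ?_).trans ?_
  · intro i hi
    rw [derivative_mul, derivative_C, zero_mul, zero_add, eval_mul, eval_C, abs_mul]
    exact mul_le_mul (h2 i hi) (hbas i hi) (abs_nonneg _) hM
  · rw [ht, nsmul_eq_mul]
    push_cast
    linarith

end Pool.Agent.H55.BP
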