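import Pool.Agent.H55.BP.Prm
import Pool.Agent.H55.BP.Ipl

/-!
Counting the integers `z` for which `g(z)` is a value of a polynomial of degree `d` at an integer.
-/

set_option autoImplicit false

open Polynomial Finset Matrix

namespace Pool.Agent.H55.BP

variable {d e q A : ℕ}

/-- each value is taken at most `e` times -/
lemma card_value_le {g : ℤ[X]} (hg : g.natDegree = e) (he : 1 ≤ e) (c : ℤ) (S : Finset ℤ)
    (hS : ∀ z ∈ S, g.eval z = c) : S.card ≤ e := by
  classical
  have h0 : g - C c ≠ 0 := by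
    intro h
    have h1 : g = C c := sub_eq_zero.1 h
    rw [h1, natDegree_C] at hg
    omega
  calc S.card ≤ (g - C c).roots.toFinset.card := by
        apply Finset.card_le_card
        intro z hz
        rw [Multiset.mem_toFinset, mem_roots h0, IsRoot.def, eval_sub, eval_C, hS z hz, sub_self]
    _ ≤ Multiset.card (g - C c).roots := Multiset.toFinset_card_le _
    _ ≤ (g - C c).natDegree := card_roots' _
    _ ≤ e := (natDegree_sub_le _ _).trans (max_le hg.le (by rw [natDegree_C]; omega))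

/-- few ordinates: few points -/
lemma card_le_of_few {U g : ℤ[X]} (hg : g.natDegree = e) (he : 1 ≤ e) {κ : ℤ → ℤ} {n : ℕ}
    (S : Finset ℤ) (h3 : ∀ z ∈ S, U.eval (κ z) = g.eval z) (h : (S.image κ).card ≤ n) :
    S.card ≤ e * n := by
  classical
  have h1 : ∀ a ∈ S.image κ, (S.filter fun x => κ x = a).card ≤ e := by
    intro a _
    apply card_value_le hg he (U.eval a)
    intro z hz
    obtain ⟨hz1, hz2⟩ := Finset.mem_filter.1 hz
    rw [← h3 z hz1, hz2]
  exact (Finset.card_le_mul_card_image S _ h1).trans (Nat.mul_le_mul_left _ h)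

/-- the constant -/
def CC (d e q A : ℕ) : ℕ :=
  (A + 1) * (d + 1) * ((d + (q - 1)) * max e A * (2 ^ ((A + 1) * (d + 1)) * d)) + e * d + e

theorem bp_count (hd : 1 ≤ d) {g : ℤ[X]} (hg : g.natDegree = e) (he : 1 ≤ e) (hq : 2 ≤ q)
    (hA : 1 ≤ A) (hN : ∀ U : ℤ[X], U.natDegree = d → NoSmall U g q) {U : ℤ[X]}
    (hU : U.natDegree = d) {Z M P : ℕ} (hZ : 1 ≤ Z) (hM : 1 ≤ M)
    (hP : ((A + 1) * q) ^ ((A + 1) * q) * Z ^ (A + 1) * (8 * (d + 1) ^ 2 * M) ^ q
      < P ^ ((A + 1) * q)) (S : Finset ℤ) (h1 : ∀ z ∈ S, |z| ≤ Z)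
    (h2 : ∀ z ∈ S, |g.eval z| ≤ M) (h3 : ∀ z ∈ S, ∃ k, U.eval k = g.eval z) :
    S.card ≤ CC d e q A * P := by
  classical
  have hP1 : 1 ≤ P := by
    by_contra hcon
    have : P = 0 := by omega
    subst this
    rw [zero_pow (by positivity)] at hP
    omega
  have h3' : ∀ z : ℤ, ∃ k, z ∈ S → U.eval k = g.eval z := by
    intro z
    by_cases hz : z ∈ S
    · obtain ⟨k, hk⟩ := h3 z hz
      exact ⟨k, fun _ => hk⟩
    · exact ⟨0, fun h => absurd h hz⟩
  choose κ hκ using h3'
  by_cases hconst : ∀ z ∈ S, ∀ z' ∈ S, g.eval z = g.eval z'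
  · rcases S.eq_empty_or_nonempty with rfl | ⟨z₀, hz₀⟩
    · simp
    · refine (card_value_le hg he (g.eval z₀) S fun z hz => hconst z hz z₀ hz₀).trans ?_
      calc e ≤ CC d e q A * 1 := by unfold CC; omega
        _ ≤ _ := Nat.mul_le_mul_left _ hP1
  push Not at hconst
  obtain ⟨z₁, hz₁, z₂, hz₂, hne⟩ := hconst
  have hdiff : ∀ z ∈ S, ∀ z' ∈ S, g.eval z ≠ g.eval z' → |κ z - κ z'| ≤ 2 * M := by
    intro z hz z' hz' hzz
    have h4 : κ z - κ z' ∣ g.eval z - g.eval z' := by
      rw [← hκ z hz, ← hκ z' hz']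
      exact sub_dvd_eval_sub _ _ _
    have h5 := Int.le_of_dvd (abs_pos.2 (sub_ne_zero.2 hzz)) ((abs_dvd_abs _ _).2 h4)
    refine h5.trans ((abs_sub _ _).trans ?_)
    have := h2 z hz
    have := h2 z' hz'
    omega
  have hdiff2 : ∀ z ∈ S, |κ z - κ z₁| ≤ 4 * M := by
    intro z hz
    by_cases hzz : g.eval z = g.eval z₁
    · have h4 := hdiff z hz z₂ hz₂ (by rw [hzz]; exact hne)
      have h5 := hdiff z₁ hz₁ z₂ hz₂ hne
      have h6 : κ z - κ z₁ = (κ z - κ z₂) - (κ z₁ - κ z₂) := by ring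
      rw [h6]
      refine (abs_sub _ _).trans ?_
      omega
    · have h4 := hdiff z hz z₁ hz₁ hzz
      omega
  obtain ⟨V, hV⟩ : ∃ V, V = U.comp (X + C (κ z₁)) := ⟨_, rfl⟩
  have hVd : V.natDegree = d := by
    rw [hV, natDegree_comp, natDegree_X_add_C, mul_one, hU]
  obtain ⟨κ', hκ'⟩ : ∃ κ' : ℤ → ℤ, κ' = fun z => κ z - κ z₁ := ⟨_, rfl⟩
  have hVe : ∀ z ∈ S, V.eval (κ' z) = g.eval z := by
    intro z hz
    rw [hV, eval_comp, eval_add, eval_X, eval_C, hκ', ← hκ z hz]
    congr 1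
    ring
  have hκ4 : ∀ z ∈ S, |κ' z| ≤ 4 * M := fun z hz => by rw [hκ']; exact hdiff2 z hz
  by_cases hcard : (S.image κ').card ≤ d
  · refine (card_le_of_few hg he S hVe hcard).trans ?_
    calc e * d ≤ CC d e q A * 1 := by unfold CC; omega
      _ ≤ _ := Nat.mul_le_mul_left _ hP1
  push Not at hcard
  obtain ⟨t, ht1, ht2⟩ := Finset.exists_subset_card_eq (show d + 1 ≤ (S.image κ').card by omega)
  obtain ⟨T, hT⟩ : ∃ T, T = 8 * (d + 1) ^ 2 * M := ⟨_, rfl⟩
  have hT1 : 1 ≤ T := by rw [hT]; exact Nat.mul_pos (by positivity) hM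
  have hT4 : 4 * M ≤ T := by
    rw [hT]
    have : 1 ≤ (d + 1) ^ 2 := Nat.one_le_pow _ _ (by omega)
    nlinarith
  rw [← hT] at hP
  have hTP : T < P ^ (A + 1) := by
    have h4 : T ^ q < (P ^ (A + 1)) ^ q := by
      rw [← pow_mul]
      refine lt_of_le_of_lt ?_ hP
      have h5 : 1 ≤ ((A + 1) * q) ^ ((A + 1) * q) * Z ^ (A + 1) :=
        Nat.mul_pos (by positivity) (by positivity)
      calc T ^ q = 1 * T ^ q := (one_mul _).symm
        _ ≤ _ := Nat.mul_le_mul_right _ h5
    exact lt_of_pow_lt_pow_left₀ q (Nat.zero_le _) h4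
  have hder : ∀ z ∈ S, (V.derivative.eval (κ' z)).natAbs < P ^ ((A + 1) * (d + 1)) := by
    intro z hz
    have hcast : ∀ z ∈ S, |((κ' z : ℤ) : ℝ)| ≤ 4 * (M : ℝ) := by
      intro z hz
      have := hκ4 z hz
      exact_mod_cast this
    have hM1 : (1 : ℝ) ≤ M := by exact_mod_cast hM
    have h4 := derivative_le hVd.le t ht2 (L := 4 * (M : ℝ)) (M := (M : ℝ)) (by linarith)
      (by linarith) (by
        intro x hx
        obtain ⟨w, hw, rfl⟩ := Finset.mem_image.1 (ht1 hx)
        exact hcast w hw) (by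
        intro x hx
        obtain ⟨w, hw, rfl⟩ := Finset.mem_image.1 (ht1 hx)
        rw [hVe w hw]
        have := h2 w hw
        exact_mod_cast this) (hcast z hz)
    have h5 : (V.derivative.eval (κ' z)).natAbs ≤ T ^ (d + 1) := by
      have h6 : (((V.derivative.eval (κ' z)).natAbs : ℕ) : ℝ) ≤ ((T ^ (d + 1) : ℕ) : ℝ) := by
        rw [Nat.cast_natAbs, Int.cast_abs]
        refine h4.trans ?_
        rw [hT]
        push_cast
        have e1 : ((d : ℝ) + 1) * M * (d * (2 * (4 * (M : ℝ))) ^ d)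
            = (d * (d + 1) * M) * (8 * (M : ℝ)) ^ d := by ring
        rw [e1, pow_succ, mul_comm]
        have hd0 : (0 : ℝ) ≤ d := Nat.cast_nonneg _
        have h7 : (1 : ℝ) ≤ ((d : ℝ) + 1) ^ 2 := one_le_pow₀ (by linarith)
        apply mul_le_mul
        · apply pow_le_pow_left₀ (by positivity)
          nlinarith
        · nlinarith
        · positivity
        · positivity
      exact_mod_cast h6
    calc (V.derivative.eval (κ' z)).natAbs ≤ T ^ (d + 1) := h5
      _ < (P ^ (A + 1)) ^ (d + 1) := Nat.pow_lt_pow_left hTP (by omega)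
      _ = _ := by rw [← pow_mul]
  have hb1 := sel_bound hd hVd hg.le hq hA (hN V hVd) (r := (A + 1) * (d + 1)) hZ hT1 hP
    (κ := κ') (S.filter fun z => V.derivative.eval (κ' z) ≠ 0)
    (fun z hz => h1 z (Finset.mem_filter.1 hz).1)
    (fun z hz => by
      have := hκ4 z (Finset.mem_filter.1 hz).1
      have h7 : ((4 * M : ℕ) : ℤ) ≤ (T : ℤ) := by exact_mod_cast hT4
      push_cast at h7
      exact this.trans h7)
    (fun z hz => hVe z (Finset.mem_filter.1 hz).1) (fun z hz => (Finset.mem_filter.1 hz).2)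
    (fun z hz => hder z (Finset.mem_filter.1 hz).1)
  have hb2 : (S.filter fun z => ¬ V.derivative.eval (κ' z) ≠ 0).card ≤ e * d := by
    apply card_le_of_few hg he (κ := κ') _ (fun z hz => hVe z (Finset.mem_filter.1 hz).1)
    have hD0 : V.derivative ≠ 0 := by
      intro h0
      have := natDegree_eq_zero_of_derivative_eq_zero h0
      omega
    calc _ ≤ V.derivative.roots.toFinset.card := by
          apply Finset.card_le_card
          intro x hx
          obtain ⟨z, hz, rfl⟩ := Finset.mem_image.1 hx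
          rw [Multiset.mem_toFinset, mem_roots hD0]
          exact not_not.1 (Finset.mem_filter.1 hz).2
      _ ≤ Multiset.card V.derivative.roots := Multiset.toFinset_card_le _
      _ ≤ V.derivative.natDegree := card_roots' _
      _ ≤ d := (natDegree_derivative_le _).trans (by omega)
  rw [← Finset.card_filter_add_card_filter_not (s := S) (fun z => V.derivative.eval (κ' z) ≠ 0)]
  calc _ ≤ (A + 1) * (d + 1) * ((d + (q - 1)) * max e A * (2 ^ ((A + 1) * (d + 1)) * P * d)) + e * d :=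
        Nat.add_le_add hb1 hb2
    _ = (A + 1) * (d + 1) * ((d + (q - 1)) * max e A * (2 ^ ((A + 1) * (d + 1)) * d)) * P + e * d * 1 := by
        ring
    _ ≤ (A + 1) * (d + 1) * ((d + (q - 1)) * max e A * (2 ^ ((A + 1) * (d + 1)) * d)) * P + e * d * P :=
        Nat.add_le_add_left (Nat.mul_le_mul_left _ hP1) _
    _ = ((A + 1) * (d + 1) * ((d + (q - 1)) * max e A * (2 ^ ((A + 1) * (d + 1)) * d)) + e * d) * P := by
        ring
    _ ≤ CC d e q A * P := by
        apply Nat.mul_le_mul_right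
        unfold CC
        omega

end Pool.Agent.H55.BP
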