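import Pool.Agent.H55.BP.Bez

/-!
The degrees of the factors of `U(Y) - g(X)`.
-/

set_option autoImplicit false

open Polynomial Finset

namespace Pool.Agent.H55.BP

/-- the substitution `X ↦ T^d`, `Y ↦ Y T^e` -/
noncomputable def wt (d e : ℕ) : ℚ[X][X] →+* ℚ[X][X] :=
  eval₂RingHom ((mapRingHom C).comp (expand ℚ d : ℚ[X] →+* ℚ[X])) (C X * X ^ e)

lemma wt_coeff {d e : ℕ} (D : ℚ[X][X]) (n b : ℕ) : ((wt d e D).coeff n).coeff b
    = if e * b ≤ n then (expand ℚ d (D.coeff b)).coeff (n - e * b) else 0 := by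
  have h0 : wt d e D = ∑ i ∈ range (max (D.natDegree + 1) (b + 1)),
      ((expand ℚ d (D.coeff i)).map C) * (C X * X ^ e) ^ i := by
    rw [wt, coe_eval₂RingHom, eval₂_eq_sum_range' _ (n := max (D.natDegree + 1) (b + 1))
      (lt_of_lt_of_le (Nat.lt_succ_self _) (le_max_left _ _))]
    rfl
  have h1 : ∀ i, ((((expand ℚ d (D.coeff i)).map C) * (C X * X ^ e) ^ i : ℚ[X][X]).coeff n).coeff b
      = if i = b then (if e * b ≤ n then (expand ℚ d (D.coeff b)).coeff (n - e * b) else 0) else 0 := by
    intro i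
    rw [mul_pow, ← C_pow, ← mul_assoc, ← pow_mul, coeff_mul_X_pow', coeff_mul_C, coeff_map]
    by_cases hib : i = b
    · subst hib
      rw [if_pos rfl]
      split_ifs
      · rw [coeff_C_mul, coeff_X_pow, if_pos rfl, mul_one]
      · simp
    · rw [if_neg hib]
      split_ifs
      · rw [coeff_C_mul, coeff_X_pow, if_neg (fun h => hib h.symm), mul_zero]
      · simp
  rw [h0, finsetSum_coeff, finsetSum_coeff, Finset.sum_congr rfl fun i _ => h1 i,
    Finset.sum_ite_eq' , if_pos]
  rw [Finset.mem_range]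
  exact lt_of_lt_of_le (Nat.lt_succ_self _) (le_max_right _ _)

lemma le_natDegree_wt {d e : ℕ} {D : ℚ[X][X]} {n b : ℕ} (h : ((wt d e D).coeff n).coeff b ≠ 0) :
    n ≤ (wt d e D).natDegree := by
  apply le_natDegree_of_ne_zero
  intro h0
  rw [h0, coeff_zero] at h
  exact h rfl

theorem dvd_of_factor {U g : ℤ[X]} {d e : ℕ} (hd : 1 ≤ d) (he : 1 ≤ e) (hU : U.natDegree = d)
    (hg : g.natDegree = e) {D : ℚ[X][X]} (hD : D.Monic) (hdvd : D ∣ WW U g) :
    d ∣ e * D.natDegree := by
  obtain ⟨D', hD'⟩ := hdvd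
  obtain ⟨hW1, hW2⟩ := WW_natDegree (g := g) hd hU
  have hune : ((U.leadingCoeff : ℤ) : ℚ) ≠ 0 := by
    have : U.leadingCoeff ≠ 0 := by
      rw [Ne, leadingCoeff_eq_zero]
      rintro rfl
      simp at hU
      omega
    exact_mod_cast this
  have hW0 : WW U g ≠ 0 := by
    intro h
    rw [h, natDegree_zero] at hW1
    omega
  have hD'0 : D' ≠ 0 := by
    rintro rfl
    rw [mul_zero] at hD'
    exact hW0 hD'
  obtain ⟨m, hm⟩ : ∃ m, m = D.natDegree := ⟨_, rfl⟩
  obtain ⟨m', hm'⟩ : ∃ m', m' = D'.natDegree := ⟨_, rfl⟩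
  have hmm : m + m' = d := by
    rw [hm, hm', ← natDegree_mul hD.ne_zero hD'0, ← hD', hW1]
  have hlc : D'.coeff m' = C ((U.leadingCoeff : ℤ) : ℚ) := by
    have h1 : (WW U g).leadingCoeff = D'.leadingCoeff := by
      rw [hD', leadingCoeff_mul, hD.leadingCoeff, one_mul]
    rw [leadingCoeff, hW1, hW2] at h1
    rw [h1, hm']
    rfl
  -- lower bounds for the weights
  have w1 : e * m ≤ (wt d e D).natDegree := by
    apply le_natDegree_wt (b := m)
    rw [wt_coeff, if_pos le_rfl, Nat.sub_self, hm]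
    have : D.coeff D.natDegree = 1 := hD
    rw [this, map_one, coeff_one_zero]
    exact one_ne_zero
  have w1' : e * m' ≤ (wt d e D').natDegree := by
    apply le_natDegree_wt (b := m')
    rw [wt_coeff, if_pos le_rfl, Nat.sub_self, hlc, expand_C, coeff_C_zero]
    exact hune
  have hwW : (wt d e (WW U g)).natDegree ≤ d * e := by
    rw [natDegree_le_iff_coeff_eq_zero]
    intro n hn
    ext b
    rw [wt_coeff, coeff_zero]
    split_ifs with hb
    · rw [coeff_expand (by omega)]
      split_ifs with hdv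
      · by_cases hb0 : b = 0
        · subst hb0
          apply coeff_eq_zero_of_natDegree_lt
          refine lt_of_le_of_lt (WW_coeff_natDegree hg.le 0) ?_
          rw [Nat.mul_zero, Nat.sub_zero]
          rw [Nat.lt_div_iff_mul_lt' (by simpa using hdv)]
          exact hn
        · rw [WW_coeff, if_neg hb0, sub_zero]
          by_cases hbd : b ≤ d
          · rw [coeff_C, if_neg]
            intro h0
            have h2 : n - e * b = 0 := by
              obtain ⟨t, ht⟩ := hdv
              rw [ht, Nat.mul_div_cancel_left _ (by omega)] at h0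
              rw [ht, h0, mul_zero]
            have h3 : e * b ≤ d * e := by rw [mul_comm]; exact Nat.mul_le_mul_right _ hbd
            omega
          · have : U.coeff b = 0 := coeff_eq_zero_of_natDegree_lt (by omega)
            rw [this]; simp
      · rfl
    · rfl
  have hwD0 : wt d e D ≠ 0 := by
    intro h
    have h1 : ((wt d e D).coeff (e * m)).coeff m ≠ 0 := by
      rw [wt_coeff, if_pos le_rfl, Nat.sub_self, hm]
      have : D.coeff D.natDegree = 1 := hD
      rw [this, map_one, coeff_one_zero]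
      exact one_ne_zero
    rw [h] at h1
    simp at h1
  have hwD'0 : wt d e D' ≠ 0 := by
    intro h
    have h1 : ((wt d e D').coeff (e * m')).coeff m' ≠ 0 := by
      rw [wt_coeff, if_pos le_rfl, Nat.sub_self, hlc, expand_C, coeff_C_zero]
      exact hune
    rw [h] at h1
    simp at h1
  have hsum : (wt d e D).natDegree + (wt d e D').natDegree ≤ d * e := by
    rw [← natDegree_mul hwD0 hwD'0, ← map_mul, ← hD']
    exact hwW
  -- constant terms
  have hc0 : D.coeff 0 * D'.coeff 0 = (WW U g).coeff 0 := by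
    rw [hD', mul_coeff_zero]
  have hce : ((WW U g).coeff 0).natDegree = e := by
    rw [WW_coeff, if_pos rfl]
    have h1 : (C ((U.coeff 0 : ℤ) : ℚ) - g.map (Int.castRingHom ℚ)).natDegree
        = (g.map (Int.castRingHom ℚ)).natDegree := by
      rw [← natDegree_neg, neg_sub]
      apply natDegree_sub_eq_left_of_natDegree_lt
      rw [natDegree_C, natDegree_map_eq_of_injective Int.cast_injective, hg]
      omega
    rw [h1, natDegree_map_eq_of_injective Int.cast_injective, hg]
  have hne : (WW U g).coeff 0 ≠ 0 := by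
    intro h
    rw [h, natDegree_zero] at hce
    omega
  have hn1 : D.coeff 0 ≠ 0 := fun h => hne (by rw [← hc0, h, zero_mul])
  have hn2 : D'.coeff 0 ≠ 0 := fun h => hne (by rw [← hc0, h, mul_zero])
  have hadd : (D.coeff 0).natDegree + (D'.coeff 0).natDegree = e := by
    rw [← natDegree_mul hn1 hn2, hc0, hce]
  have hw2 : ∀ E : ℚ[X][X], E.coeff 0 ≠ 0 → d * (E.coeff 0).natDegree ≤ (wt d e E).natDegree := by
    intro E hE
    apply le_natDegree_wt (b := 0)
    rw [wt_coeff, Nat.mul_zero, if_pos (Nat.zero_le _), Nat.sub_zero, mul_comm d,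
      coeff_expand_mul (by omega)]
    exact leadingCoeff_ne_zero.2 hE
  have h5 := hw2 D hn1
  have h6 := hw2 D' hn2
  refine ⟨(D.coeff 0).natDegree, ?_⟩
  rw [← hm]
  have h7 : d * e = d * (D.coeff 0).natDegree + d * (D'.coeff 0).natDegree := by
    rw [← mul_add, hadd]
  have h8 : d * e = e * m + e * m' := by rw [← mul_add, hmm, mul_comm]
  omega

/-- the degrees of the factors are multiples of `d / gcd(d, e)` -/
theorem noSmall_gcd {U g : ℤ[X]} {d e : ℕ} (hd : 1 ≤ d) (he : 1 ≤ e) (hU : U.natDegree = d)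
    (hg : g.natDegree = e) : NoSmall U g (d / Nat.gcd d e) := by
  intro D hD h1 h2 hdvd
  have h3 := dvd_of_factor hd he hU hg hD hdvd
  have hgpos : 0 < Nat.gcd d e := Nat.gcd_pos_of_pos_left _ hd
  have h4 : d / Nat.gcd d e ∣ D.natDegree := by
    have hcop : Nat.Coprime (d / Nat.gcd d e) (e / Nat.gcd d e) :=
      Nat.coprime_div_gcd_div_gcd hgpos
    apply hcop.dvd_of_dvd_mul_left
    have h5 : Nat.gcd d e * (d / Nat.gcd d e) ∣ Nat.gcd d e * (e / Nat.gcd d e * D.natDegree) := by
      rw [Nat.mul_div_cancel' (Nat.gcd_dvd_left _ _), ← mul_assoc,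
        Nat.mul_div_cancel' (Nat.gcd_dvd_right _ _)]
      exact h3
    exact Nat.dvd_of_mul_dvd_mul_left hgpos h5
  have := Nat.le_of_dvd (by omega) h4
  omega

/-- no factors of degree one if `g` is not a composition with left component of degree `d` -/
theorem noSmall_two {U g : ℤ[X]} {d : ℕ} (hU : U.natDegree = d)
    (hg : ¬ ∃ V h : ℚ[X], V.natDegree = d ∧ g.map (Int.castRingHom ℚ) = V.comp h) :
    NoSmall U g 2 := by
  intro D hD h1 h2 hdvd
  have hD1 : D.natDegree = 1 := by omega
  apply hg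
  refine ⟨U.map (Int.castRingHom ℚ), -D.coeff 0, ?_, ?_⟩
  · rw [natDegree_map_eq_of_injective Int.cast_injective, hU]
  · obtain ⟨E, hE⟩ := hdvd
    have hDe : D.eval (-D.coeff 0) = 0 := by
      have h3 : D = X + C (D.coeff 0) := by
        have := hD
        rw [eq_X_add_C_of_natDegree_le_one hD1.le]
        have h4 : D.coeff 1 = 1 := by
          have : D.coeff D.natDegree = 1 := hD
          rwa [hD1] at this
        simp [h4]
      rw [h3]
      simp
    have h4 : (WW U g).eval (-D.coeff 0) = 0 := by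
      rw [hE, eval_mul, hDe, zero_mul]
    rw [WW, eval_sub, eval_C, sub_eq_zero, eval_map] at h4
    rw [← h4]
    rfl

end Pool.Agent.H55.BP
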