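import Mathlib

/-!
Determinants of values of polynomials at congruent integers.
-/

set_option autoImplicit false

open Polynomial Finset Matrix

namespace Pool.Agent.H55.BP

/-- the values of integral polynomials: divisibility by the Vandermonde determinant -/
lemma vandermonde_dvd_det {s : ℕ} (v : Fin s → ℤ) (P : Fin s → ℤ[X]) :
    (vandermonde v).det ∣ (Matrix.of fun i j => (P j).eval (v i)).det := by
  classical
  obtain ⟨W, hW⟩ : ∃ W : ℤ[X], W = ∏ i, (X - C (v i)) := ⟨_, rfl⟩
  have hWm : W.Monic := by rw [hW]; exact monic_prod_of_monic _ _ fun i _ => monic_X_sub_C _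
  have hWd : W.natDegree = s := by
    rw [hW, natDegree_prod_of_monic _ _ fun i _ => monic_X_sub_C _,
      Finset.sum_congr rfl fun i _ => natDegree_X_sub_C (v i)]
    simp
  have hWe : ∀ i, W.eval (v i) = 0 := by
    intro i
    rw [hW, eval_prod]
    exact Finset.prod_eq_zero (Finset.mem_univ i) (by simp)
  have hlt : ∀ j, (P j %ₘ W).degree < s := by
    intro j
    have h := degree_modByMonic_lt (P j) hWm
    rw [degree_eq_natDegree hWm.ne_zero, hWd] at h
    exact h
  have hev : ∀ i j, (P j).eval (v i) = ∑ l : Fin s, v i ^ (l : ℕ) * (P j %ₘ W).coeff l := by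
    intro i j
    have h1 : (P j).eval (v i) = (P j %ₘ W).eval (v i) := by
      conv_lhs => rw [← modByMonic_add_div (P j) W]
      rw [eval_add, eval_mul, hWe, zero_mul, add_zero]
    rw [h1]
    by_cases hs : s = 0
    · subst hs
      have h2 := hlt j
      have h3 : (P j %ₘ W) = 0 := by
        apply degree_eq_bot.1
        by_contra hcon
        have h4 := zero_le_degree_iff.2 (fun h => hcon (degree_eq_bot.2 h))
        exact absurd (lt_of_le_of_lt h4 h2) (lt_irrefl _)
      rw [h3]; simp
    · rw [eval_eq_sum_range' (n := s)]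
      · rw [Finset.sum_range]
        exact Finset.sum_congr rfl fun l _ => mul_comm _ _
      · by_cases h0 : P j %ₘ W = 0
        · rw [h0, natDegree_zero]; omega
        · exact (natDegree_lt_iff_degree_lt h0).2 (hlt j)
  have hmul : (Matrix.of fun i j => (P j).eval (v i))
      = vandermonde v * (Matrix.of fun (l : Fin s) j => (P j %ₘ W).coeff l) := by
    ext i j
    rw [Matrix.of_apply, hev, Matrix.mul_apply]
    apply Finset.sum_congr rfl
    intro l _
    rw [vandermonde_apply, Matrix.of_apply]
  rw [hmul, det_mul]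
  exact dvd_mul_right _ _

lemma pow_dvd_vandermonde {s : ℕ} (v : Fin s → ℤ) (p : ℤ) (h : ∀ i j, p ∣ v i - v j) :
    p ^ (s.choose 2) ∣ (vandermonde v).det := by
  have hcard : ∑ i : Fin s, (Finset.Ioi i).card = s.choose 2 := by
    have h1 : ∀ i : Fin s, (Finset.Ioi i).card = s - 1 - (i : ℕ) := by
      intro i
      rw [Fin.card_Ioi]
    rw [Finset.sum_congr rfl fun i _ => h1 i, ← Finset.sum_range (fun i => s - 1 - i)]
    rw [Finset.sum_range_reflect (fun i => i) s, Finset.sum_range_id, Nat.choose_two_right]
  rw [det_vandermonde]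
  calc p ^ (s.choose 2) = ∏ i : Fin s, ∏ _j ∈ Finset.Ioi i, p := by
        rw [Finset.prod_congr rfl fun i _ => Finset.prod_const p, Finset.prod_pow_eq_pow_sum, hcard]
    _ ∣ _ := Finset.prod_dvd_prod_of_dvd _ _ fun i _ =>
        Finset.prod_dvd_prod_of_dvd _ _ fun j _ => h j i

end Pool.Agent.H55.BP
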