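import Pool.Agent.H55.BP.Cnt
import Pool.Agent.H55.BP.Deg

/-!
The uniform bound in short intervals.
-/

set_option autoImplicit false

open Polynomial Finset

namespace Pool.Agent.H55.BP

/-- the real form of the bound -/
theorem bp_real (d e q : ℕ) (hd : 1 ≤ d) (he : 1 ≤ e) (hq : 2 ≤ q) (ε : ℝ) (hε : 0 < ε) :
    ∃ C : ℝ, 0 < C ∧ ∀ g : ℤ[X], g.natDegree = e → (∀ U : ℤ[X], U.natDegree = d → NoSmall U g q) →
      ∀ U : ℤ[X], U.natDegree = d → ∀ Z M : ℕ, 1 ≤ Z → 1 ≤ M → ∀ S : Finset ℤ,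
        (∀ z ∈ S, |z| ≤ Z) → (∀ z ∈ S, |g.eval z| ≤ M) → (∀ z ∈ S, ∃ k, U.eval k = g.eval z) →
        (S.card : ℝ) ≤ C * (M : ℝ) ^ ε * (Z : ℝ) ^ (1 / (q : ℝ)) := by
  obtain ⟨A, hA⟩ : ∃ A : ℕ, 1 ≤ A ∧ 1 / ((A : ℝ) + 1) ≤ ε := by
    obtain ⟨n, hn⟩ := exists_nat_gt (1 / ε)
    refine ⟨n + 1, by omega, ?_⟩
    push_cast
    rw [div_le_iff₀ (by positivity)]
    rw [div_lt_iff₀ hε] at hn
    nlinarith
  obtain ⟨hA1, hAε⟩ := hA
  obtain ⟨s, hs⟩ : ∃ s, s = (A + 1) * q := ⟨_, rfl⟩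
  have hs1 : 1 ≤ s := by rw [hs]; exact Nat.mul_pos (by omega) (by omega)
  have hsR : (1 : ℝ) ≤ s := by exact_mod_cast hs1
  refine ⟨(CC d e q A + 1) * (2 * (s * (8 * ((d : ℝ) + 1) ^ 2))), by positivity, ?_⟩
  intro g hg hN U hU Z M hZ hM S h1 h2 h3
  have hZR : (1 : ℝ) ≤ Z := by exact_mod_cast hZ
  have hMR : (1 : ℝ) ≤ M := by exact_mod_cast hM
  have hqR : (2 : ℝ) ≤ q := by exact_mod_cast hq
  have hAR : (0 : ℝ) < (A : ℝ) + 1 := by positivity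
  obtain ⟨D, hD⟩ : ∃ D : ℝ, D = 8 * ((d : ℝ) + 1) ^ 2 := ⟨_, rfl⟩
  have hD1 : 1 ≤ D := by
    have h4 : (1 : ℝ) ≤ ((d : ℝ) + 1) ^ 2 := one_le_pow₀ (by
      have : (0 : ℝ) ≤ d := Nat.cast_nonneg _
      linarith)
    rw [hD]; linarith
  obtain ⟨x, hx⟩ : ∃ x : ℝ, x = s * (Z : ℝ) ^ (1 / (q : ℝ)) * (D * M) ^ (1 / ((A : ℝ) + 1)) := ⟨_, rfl⟩
  have hzq : 1 ≤ (Z : ℝ) ^ (1 / (q : ℝ)) := Real.one_le_rpow hZR (by positivity)
  have hDM : 1 ≤ D * M := one_le_mul_of_one_le_of_one_le hD1 hMR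
  have hdm : 1 ≤ (D * M) ^ (1 / ((A : ℝ) + 1)) := Real.one_le_rpow hDM (by positivity)
  have hx1 : 1 ≤ x := by
    rw [hx]
    exact one_le_mul_of_one_le_of_one_le (one_le_mul_of_one_le_of_one_le hsR hzq) hdm
  obtain ⟨P, hP⟩ : ∃ P : ℕ, P = ⌊x⌋₊ + 1 := ⟨_, rfl⟩
  have hPx : x < P := by rw [hP]; push_cast; exact Nat.lt_floor_add_one x
  have hPx2 : (P : ℝ) ≤ 2 * x := by
    rw [hP]; push_cast
    have := Nat.floor_le (show 0 ≤ x by linarith)
    linarith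
  have hxs : x ^ s = (s : ℝ) ^ s * (Z : ℝ) ^ (A + 1) * (D * M) ^ q := by
    rw [hx, mul_pow, mul_pow]
    congr 1
    · congr 1
      rw [← Real.rpow_natCast ((Z : ℝ) ^ (1 / (q : ℝ))) s, ← Real.rpow_mul (by linarith),
        ← Real.rpow_natCast (Z : ℝ) (A + 1)]
      congr 1
      rw [hs]; push_cast
      field_simp
    · rw [← Real.rpow_natCast ((D * M) ^ (1 / ((A : ℝ) + 1))) s, ← Real.rpow_mul (by linarith),
        ← Real.rpow_natCast (D * M) q]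
      congr 1
      rw [hs]; push_cast
      field_simp
  have hcond : ((A + 1) * q) ^ ((A + 1) * q) * Z ^ (A + 1) * (8 * (d + 1) ^ 2 * M) ^ q
      < P ^ ((A + 1) * q) := by
    rw [← hs]
    have h4 : x ^ s < (P : ℝ) ^ s := pow_lt_pow_left₀ hPx (by linarith) (by omega)
    rw [hxs, hD] at h4
    exact_mod_cast h4
  have h5 := bp_count hd hg he hq hA1 hN hU hZ hM hcond S h1 h2 h3
  have h6 : (S.card : ℝ) ≤ CC d e q A * P := by exact_mod_cast h5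
  have h7 : (D * M) ^ (1 / ((A : ℝ) + 1)) ≤ D * (M : ℝ) ^ ε := by
    rw [Real.mul_rpow (by linarith) (by linarith)]
    apply mul_le_mul
    · calc D ^ (1 / ((A : ℝ) + 1)) ≤ D ^ (1 : ℝ) := by
            apply Real.rpow_le_rpow_of_exponent_le hD1
            rw [div_le_one hAR]
            have : (0 : ℝ) ≤ A := Nat.cast_nonneg _
            linarith
        _ = D := Real.rpow_one D
    · exact Real.rpow_le_rpow_of_exponent_le hMR hAε
    · positivity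
    · linarith
  have hC0 : (0 : ℝ) ≤ CC d e q A := Nat.cast_nonneg _
  calc (S.card : ℝ) ≤ CC d e q A * P := h6
    _ ≤ (CC d e q A + 1) * (2 * x) := mul_le_mul (by linarith) hPx2 (by positivity) (by positivity)
    _ = (CC d e q A + 1) * (2 * s * (Z : ℝ) ^ (1 / (q : ℝ))) * (D * M) ^ (1 / ((A : ℝ) + 1)) := by
        rw [hx]; ring
    _ ≤ (CC d e q A + 1) * (2 * s * (Z : ℝ) ^ (1 / (q : ℝ))) * (D * (M : ℝ) ^ ε) :=
        mul_le_mul_of_nonneg_left h7 (by positivity)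
    _ = _ := by rw [hD]; ring

/-- values of `g` -/
lemma abs_eval_le {g : ℤ[X]} {e H N : ℕ} (hg : g.natDegree ≤ e) (hH : ∀ i, |g.coeff i| ≤ H)
    (hN : 1 ≤ N) {z : ℤ} (hz : |z| ≤ N) : |g.eval z| ≤ (((e + 1) * H * N ^ e : ℕ) : ℤ) := by
  rw [eval_eq_sum_range' (n := e + 1) (by omega)]
  refine (Finset.abs_sum_le_sum_abs _ _).trans ?_
  refine (Finset.sum_le_card_nsmul _ _ ((H : ℤ) * (N : ℤ) ^ e) ?_).trans ?_
  · intro i hi
    rw [Finset.mem_range] at hi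
    rw [abs_mul, abs_pow]
    apply mul_le_mul (hH i) _ (by positivity) (by positivity)
    calc |z| ^ i ≤ (N : ℤ) ^ i := pow_le_pow_left₀ (abs_nonneg _) hz _
      _ ≤ (N : ℤ) ^ e := pow_le_pow_right₀ (by exact_mod_cast hN) (by omega)
  · rw [Finset.card_range, nsmul_eq_mul]
    push_cast
    linarith

/-- the composition hypothesis is invariant under translations -/
lemma comp_shift {g : ℤ[X]} {d : ℕ} (z₀ : ℤ)
    (hg : ¬ ∃ V h : ℚ[X], V.natDegree = d ∧ g.map (Int.castRingHom ℚ) = V.comp h) :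
    ¬ ∃ V h : ℚ[X], V.natDegree = d ∧
      (g.comp (X + C z₀)).map (Int.castRingHom ℚ) = V.comp h := by
  rintro ⟨V, h, h1, h2⟩
  apply hg
  refine ⟨V, h.comp (X - C (z₀ : ℚ)), h1, ?_⟩
  rw [← comp_assoc, ← h2, map_comp, comp_assoc]
  simp

/-- **The uniform bound in an interval.** -/
theorem bp_interval (d e q : ℕ) (hd : 1 ≤ d) (he : 1 ≤ e) (hq : 2 ≤ q) (ε : ℝ) (hε : 0 < ε) :
    ∃ K : ℝ, 0 < K ∧ ∀ g : ℤ[X], g.natDegree = e → ∀ z₀ : ℤ,
      (∀ U : ℤ[X], U.natDegree = d → NoSmall U (g.comp (X + C z₀)) q) →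
      ∀ U : ℤ[X], U.natDegree = d → ∀ H Z : ℕ, (∀ i, |g.coeff i| ≤ H) → 1 ≤ Z → ∀ S : Finset ℤ,
        (∀ z ∈ S, z₀ ≤ z ∧ z ≤ z₀ + Z) → (∀ z ∈ S, ∃ k, U.eval k = g.eval z) →
        (S.card : ℝ) ≤ K * ((H : ℝ) * (|(z₀ : ℝ)| + Z)) ^ ε * (Z : ℝ) ^ (1 / (q : ℝ)) := by
  have heR : (1 : ℝ) ≤ e := by exact_mod_cast he
  obtain ⟨K, hC, hmain⟩ := bp_real d e q hd he hq (ε / e) (by positivity)
  refine ⟨K * ((e : ℝ) + 1) ^ (ε / e), by positivity, ?_⟩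
  intro g hg z₀ hN U hU H Z hH hZ S hS1 hS2
  classical
  have hH1 : 1 ≤ H := by
    have h1 : g.leadingCoeff ≠ 0 := by
      rw [Ne, leadingCoeff_eq_zero]
      rintro rfl
      simp at hg
      omega
    have h2 := hH g.natDegree
    have h3 : 1 ≤ |g.coeff g.natDegree| := Int.one_le_abs h1
    have h4 : (1 : ℤ) ≤ H := h3.trans h2
    exact_mod_cast h4
  obtain ⟨N, hNdef⟩ : ∃ N : ℕ, N = z₀.natAbs + Z := ⟨_, rfl⟩
  have hN1 : 1 ≤ N := by omega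
  obtain ⟨f, hf⟩ : ∃ f : ℤ[X], f = g.comp (X + C z₀) := ⟨_, rfl⟩
  have hfd : f.natDegree = e := by
    rw [hf, natDegree_comp, natDegree_X_add_C, mul_one, hg]
  have hfe : ∀ z, f.eval z = g.eval (z + z₀) := by
    intro z
    rw [hf, eval_comp, eval_add, eval_X, eval_C]
  obtain ⟨S', hS'⟩ : ∃ S' : Finset ℤ, S' = S.image fun z => z - z₀ := ⟨_, rfl⟩
  have hcard : S'.card = S.card := by
    rw [hS']
    exact Finset.card_image_of_injective _ fun a b h => by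
      simpa using h
  have h5 := hmain f hfd (by rw [hf]; exact hN) U hU Z ((e + 1) * H * N ^ e) hZ
    (Nat.mul_pos (Nat.mul_pos (by omega) hH1) (by positivity)) S' (by
      intro w hw
      rw [hS'] at hw
      obtain ⟨z, hz, rfl⟩ := Finset.mem_image.1 hw
      have := hS1 z hz
      rw [abs_le]
      constructor <;> omega) (by
      intro w hw
      rw [hS'] at hw
      obtain ⟨z, hz, rfl⟩ := Finset.mem_image.1 hw
      rw [hfe, sub_add_cancel]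
      apply abs_eval_le hg.le hH hN1
      have := hS1 z hz
      rw [hNdef, abs_le]
      push_cast
      have h6 : |z₀| = (z₀.natAbs : ℤ) := by simp
      have h7 := neg_abs_le z₀
      have h8 := le_abs_self z₀
      constructor <;> omega) (by
      intro w hw
      rw [hS'] at hw
      obtain ⟨z, hz, rfl⟩ := Finset.mem_image.1 hw
      rw [hfe, sub_add_cancel]
      exact hS2 z hz)
  rw [hcard] at h5
  refine h5.trans ?_
  have hHR : (1 : ℝ) ≤ H := by exact_mod_cast hH1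
  have hNR : (1 : ℝ) ≤ N := by exact_mod_cast hN1
  have hNe : (N : ℝ) = |(z₀ : ℝ)| + Z := by
    rw [hNdef]; push_cast
    rw [Nat.cast_natAbs, Int.cast_abs]
  have h9 : ((((e + 1) * H * N ^ e : ℕ) : ℝ)) ^ (ε / e)
      ≤ ((e : ℝ) + 1) ^ (ε / e) * ((H : ℝ) * (|(z₀ : ℝ)| + Z)) ^ ε := by
    rw [← hNe]
    have h10 : (((e + 1) * H * N ^ e : ℕ) : ℝ) ≤ ((e : ℝ) + 1) * ((H : ℝ) * N) ^ e := by
      push_cast
      rw [mul_pow, mul_assoc]
      apply mul_le_mul_of_nonneg_left _ (by positivity)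
      apply mul_le_mul_of_nonneg_right _ (by positivity)
      exact le_self_pow₀ hHR (by omega)
    refine (Real.rpow_le_rpow (by positivity) h10 (by positivity)).trans ?_
    rw [Real.mul_rpow (by positivity) (by positivity)]
    apply mul_le_mul_of_nonneg_left _ (by positivity)
    rw [← Real.rpow_natCast ((H : ℝ) * N) e, ← Real.rpow_mul (by positivity)]
    apply le_of_eq
    congr 1
    field_simp
  have hzq : 0 ≤ (Z : ℝ) ^ (1 / (q : ℝ)) := by positivity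
  calc K * ((((e + 1) * H * N ^ e : ℕ) : ℝ)) ^ (ε / e) * (Z : ℝ) ^ (1 / (q : ℝ))
      ≤ K * (((e : ℝ) + 1) ^ (ε / e) * ((H : ℝ) * (|(z₀ : ℝ)| + Z)) ^ ε) * (Z : ℝ) ^ (1 / (q : ℝ)) :=
        mul_le_mul_of_nonneg_right (mul_le_mul_of_nonneg_left h9 hC.le) hzq
    _ = _ := by ring

end Pool.Agent.H55.BP
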