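import Pool.Agent.H55.BP.Det

/-!
Integral points in one residue class: the determinant of the values of monomials.
-/

set_option autoImplicit false

open Polynomial Finset Matrix

namespace Pool.Agent.H55.BP

/-- approximations of the branch `k = φ(z)` of `U(k) = g(z)` modulo powers of `p` -/
noncomputable def hen (U g : ℤ[X]) (a k₀ : ℤ) : ℕ → ℤ[X]
  | 0 => C k₀
  | n + 1 => hen U g a k₀ n - C a * (U.comp (hen U g a k₀ n) - g)

lemma hen_spec {U g : ℤ[X]} {a k₀ p : ℤ} (ha : p ∣ a * U.derivative.eval k₀ - 1) (n : ℕ) {z k : ℤ}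
    (hk : p ∣ k - k₀) (hzk : U.eval k = g.eval z) :
    p ^ (n + 1) ∣ k - (hen U g a k₀ n).eval z := by
  induction n with
  | zero => simpa [hen] using hk
  | succ n ih =>
    obtain ⟨Φ, hΦ⟩ : ∃ Φ, Φ = (hen U g a k₀ n).eval z := ⟨_, rfl⟩
    rw [← hΦ] at ih
    have he : (hen U g a k₀ (n + 1)).eval z = Φ - a * (U.eval Φ - g.eval z) := by
      simp only [hen, eval_sub, eval_mul, eval_C, eval_comp, ← hΦ]
    rw [he, ← hzk]
    obtain ⟨w, hw⟩ := U.binomExpansion k (Φ - k)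
    have h1 : k + (Φ - k) = Φ := by ring
    rw [h1] at hw
    have h2 : p ∣ U.derivative.eval k - U.derivative.eval k₀ :=
      hk.trans (sub_dvd_eval_sub _ _ _)
    have h3 : p ∣ k - Φ := dvd_trans (dvd_pow_self p (by omega)) ih
    have h4 : p ∣ 1 - a * U.derivative.eval k + a * w * (k - Φ) := by
      have e1 : 1 - a * U.derivative.eval k + a * w * (k - Φ)
          = -(a * U.derivative.eval k₀ - 1) - a * (U.derivative.eval k - U.derivative.eval k₀)
            + a * w * (k - Φ) := by ring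
      rw [e1]
      exact dvd_add (dvd_sub (dvd_neg.2 ha) (dvd_mul_of_dvd_right h2 _)) (dvd_mul_of_dvd_right h3 _)
    have h5 : k - (Φ - a * (U.eval Φ - U.eval k))
        = (k - Φ) * (1 - a * U.derivative.eval k + a * w * (k - Φ)) := by
      rw [hw]; ring
    rw [h5, pow_succ]
    exact mul_dvd_mul ih h4

/-- divisibility of the determinant of the values of `s` monomials at `s` points of one residue
class -/
lemma pow_dvd_det {s : ℕ} {U g : ℤ[X]} {p k₀ : ℤ} (ha : ∃ a, p ∣ a * U.derivative.eval k₀ - 1)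
    (α β : Fin s → ℕ) (z k : Fin s → ℤ) (hk : ∀ i, p ∣ k i - k₀) (hz : ∀ i j, p ∣ z i - z j)
    (hzk : ∀ i, U.eval (k i) = g.eval (z i)) :
    p ^ (s.choose 2) ∣ (Matrix.of fun i j => z i ^ α j * k i ^ β j).det := by
  obtain ⟨a, ha⟩ := ha
  obtain ⟨m, hm⟩ : ∃ m : ℤ, m = p ^ (s.choose 2) := ⟨_, rfl⟩
  obtain ⟨Φ, hΦ⟩ : ∃ Φ, Φ = hen U g a k₀ (s.choose 2) := ⟨_, rfl⟩
  have h1 : ∀ i, m ∣ k i - Φ.eval (z i) := by
    intro i
    rw [hm, hΦ]
    exact dvd_trans (pow_dvd_pow p (by omega)) (hen_spec ha _ (hk i) (hzk i))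
  have h2 : m ∣ (Matrix.of fun i j => (X ^ α j * Φ ^ β j : ℤ[X]).eval (z i)).det := by
    rw [hm]
    exact dvd_trans (pow_dvd_vandermonde z p hz) (vandermonde_dvd_det z _)
  rw [← hm]
  have h3 : m ∣ (Matrix.of fun i j => z i ^ α j * k i ^ β j).det
      - (Matrix.of fun i j => (X ^ α j * Φ ^ β j : ℤ[X]).eval (z i)).det := by
    have hq : ∀ x y : ℤ, m ∣ x - y ↔ Ideal.Quotient.mk (Ideal.span {m}) x
        = Ideal.Quotient.mk (Ideal.span {m}) y := by
      intro x y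
      rw [Ideal.Quotient.eq, Ideal.mem_span_singleton]
    rw [hq, RingHom.map_det, RingHom.map_det]
    congr 1
    ext i j
    rw [RingHom.mapMatrix_apply, RingHom.mapMatrix_apply, Matrix.map_apply, Matrix.map_apply,
      Matrix.of_apply, Matrix.of_apply]
    have h4 := (hq _ _).1 (h1 i)
    rw [eval_mul, eval_pow, eval_X, eval_pow, map_mul, map_mul, map_pow, map_pow, map_pow, h4]
  have h5 := dvd_add h3 h2
  rwa [sub_add_cancel] at h5

lemma abs_det_le {s : ℕ} (A : Matrix (Fin s) (Fin s) ℤ) (c : Fin s → ℤ)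
    (h : ∀ i j, |A i j| ≤ c j) : |A.det| ≤ s.factorial * ∏ j, c j := by
  rw [Matrix.det_apply]
  refine (Finset.abs_sum_le_sum_abs _ _).trans ?_
  have h1 : ∀ σ ∈ (Finset.univ : Finset (Equiv.Perm (Fin s))),
      |Equiv.Perm.sign σ • ∏ i, A (σ i) i| ≤ ∏ j, c j := by
    intro σ _
    have h2 : |Equiv.Perm.sign σ • ∏ i, A (σ i) i| = ∏ i, |A (σ i) i| := by
      rcases Int.units_eq_one_or (Equiv.Perm.sign σ) with h | h
      · rw [h, one_smul, Finset.abs_prod]
      · rw [h, Units.neg_smul, one_smul, abs_neg, Finset.abs_prod]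
    rw [h2]
    exact Finset.prod_le_prod (fun i _ => abs_nonneg _) (fun i _ => h _ _)
  refine (Finset.sum_le_card_nsmul _ _ _ h1).trans ?_
  rw [Finset.card_univ, Fintype.card_perm, Fintype.card_fin, nsmul_eq_mul]

/-- the determinant vanishes if the prime is large -/
lemma det_zero {s : ℕ} {U g : ℤ[X]} {p k₀ : ℤ}
    (ha : ∃ a, p ∣ a * U.derivative.eval k₀ - 1)
    (α β : Fin s → ℕ) (z k : Fin s → ℤ) (hk : ∀ i, p ∣ k i - k₀) (hz : ∀ i j, p ∣ z i - z j)
    (hzk : ∀ i, U.eval (k i) = g.eval (z i)) {Z T : ℤ} (hZ : ∀ i, |z i| ≤ Z) (hT : ∀ i, |k i| ≤ T)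
    (hsm : s.factorial * ∏ j, (Z ^ α j * T ^ β j) < p ^ (s.choose 2)) :
    (Matrix.of fun i j => z i ^ α j * k i ^ β j).det = 0 := by
  by_contra hne
  have h1 := Int.le_of_dvd (abs_pos.2 hne)
    ((dvd_abs _ _).2 (pow_dvd_det ha α β z k hk hz hzk))
  have h2 := abs_det_le (Matrix.of fun i j => z i ^ α j * k i ^ β j) (fun j => Z ^ α j * T ^ β j) (by
    intro i j
    rw [Matrix.of_apply, abs_mul, abs_pow, abs_pow]
    exact mul_le_mul (pow_le_pow_left₀ (abs_nonneg _) (hZ i) _)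
      (pow_le_pow_left₀ (abs_nonneg _) (hT i) _) (by positivity)
      (pow_nonneg ((abs_nonneg _).trans (hZ i)) _))
  omega

end Pool.Agent.H55.BP
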