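import Pool.Agent.H55.BP.Hen

/-!
The auxiliary polynomial for the points of one residue class.
-/

set_option autoImplicit false

open Polynomial Finset Matrix

namespace Pool.Agent.H55.BP

/-- if all determinants of vectors of a set vanish, then the set satisfies a linear relation -/
lemma exists_relation {s : ℕ} {ι : Type} (S : Set ι) (m : ι → Fin s → ℚ)
    (h : ∀ P : Fin s → ι, Function.Injective P → (∀ i, P i ∈ S) →
      (Matrix.of fun i j => m (P i) j).det = 0) :
    ∃ c : Fin s → ℚ, c ≠ 0 ∧ ∀ P ∈ S, ∑ j, c j * m P j = 0 := by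
  classical
  by_cases hspan : Submodule.span ℚ (m '' S) = ⊤
  · exfalso
    obtain ⟨b, hb1, hb2, hb3⟩ := exists_linearIndependent ℚ (m '' S)
    rw [hspan] at hb2
    have hfin : b.Finite := hb3.setFinite
    let B : Module.Basis b ℚ (Fin s → ℚ) := Module.Basis.mk hb3 (by
      rw [Subtype.range_coe]; exact hb2.ge)
    have hfb : Fintype b := hfin.fintype
    have hcard : Fintype.card b = s := by
      have h1 := Module.finrank_eq_card_basis B
      rw [Module.finrank_fin_fun] at h1
      exact h1.symm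
    let e : Fin s ≃ b := (Fintype.equivFinOfCardEq hcard).symm
    have hch : ∀ v : b, ∃ P ∈ S, m P = v := fun v => hb1 v.2
    choose Q hQS hQm using hch
    have hdet := h (fun i => Q (e i)) (by
      intro i i' hii
      have h1 := congrArg m hii
      rw [hQm, hQm] at h1
      exact e.injective (Subtype.ext h1)) (fun i => hQS _)
    have hli : LinearIndependent ℚ (fun i : Fin s => (Matrix.of fun i j => m (Q (e i)) j) i) := by
      have h1 : (fun i : Fin s => (Matrix.of fun i j => m (Q (e i)) j) i)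
          = (fun v : b => (v : Fin s → ℚ)) ∘ e := by
        funext i
        show m (Q (e i)) = _
        rw [hQm]; rfl
      rw [h1]
      exact hb3.comp _ e.injective
    have h2 := Matrix.linearIndependent_rows_iff_isUnit.1 hli
    rw [Matrix.isUnit_iff_isUnit_det, hdet] at h2
    exact not_isUnit_zero h2
  · have hlt : Submodule.span ℚ (m '' S) < ⊤ := lt_top_iff_ne_top.2 hspan
    obtain ⟨f, hf0, hf⟩ := Submodule.exists_le_ker_of_lt_top _ hlt
    refine ⟨fun j => f (Pi.single j 1), ?_, ?_⟩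
    · intro h0
      apply hf0
      apply LinearMap.ext
      intro v
      rw [LinearMap.zero_apply]
      have h1 : v = ∑ j, v j • (Pi.single j (1 : ℚ) : Fin s → ℚ) := by
        funext i
        rw [Finset.sum_apply]
        simp [Pi.single_apply]
      rw [h1, map_sum]
      apply Finset.sum_eq_zero
      intro j _
      have h2 := congrFun h0 j
      simp only [Pi.zero_apply] at h2
      rw [map_smul, h2, smul_zero]
    · intro P hP
      have h1 : m P ∈ LinearMap.ker f := hf (Submodule.subset_span ⟨P, hP, rfl⟩)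
      rw [LinearMap.mem_ker] at h1
      have h2 : m P = ∑ j, m P j • (Pi.single j (1 : ℚ) : Fin s → ℚ) := by
        funext i
        rw [Finset.sum_apply]
        simp [Pi.single_apply]
      rw [h2, map_sum] at h1
      rw [← h1]
      apply Finset.sum_congr rfl
      intro j _
      rw [map_smul, smul_eq_mul, mul_comm]

lemma sum_div {q : ℕ} (hq : 0 < q) (n : ℕ) : 2 * ∑ j ∈ range (n * q), j / q = q * (n * (n - 1)) := by
  induction n with
  | zero => simp
  | succ n ih =>
    rw [Nat.add_mul, one_mul, Finset.sum_range_add, mul_add, ih]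
    have h1 : ∑ x ∈ range q, (n * q + x) / q = q * n := by
      rw [Finset.sum_congr rfl (g := fun _ => n)]
      · simp
      · intro x hx
        rw [Finset.mem_range] at hx
        rw [mul_comm n q, Nat.mul_add_div hq, Nat.div_eq_of_lt hx, add_zero]
    rw [h1]
    rcases n with _ | n
    · simp
    · simp only [Nat.add_sub_cancel]; ring

lemma sum_mod {q : ℕ} (hq : 0 < q) (n : ℕ) : 2 * ∑ j ∈ range (n * q), j % q = n * (q * (q - 1)) := by
  induction n with
  | zero => simp
  | succ n ih =>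
    rw [Nat.add_mul, one_mul, Finset.sum_range_add, mul_add, ih]
    have h1 : ∑ x ∈ range q, (n * q + x) % q = ∑ x ∈ range q, x := by
      apply Finset.sum_congr rfl
      intro x hx
      rw [Finset.mem_range] at hx
      rw [mul_comm n q, Nat.mul_add_mod, Nat.mod_eq_of_lt hx]
    rw [h1, mul_comm 2, Finset.sum_range_id_mul_two]
    ring

/-- the size condition -/
lemma size_cond {A q : ℕ} (hq : 2 ≤ q) (hA : 1 ≤ A) {Z T p : ℕ} (hZ : 1 ≤ Z) (hT : 1 ≤ T)
    (hp : ((A + 1) * q) ^ ((A + 1) * q) * Z ^ (A + 1) * T ^ q < p ^ ((A + 1) * q)) :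
    ((((A + 1) * q).factorial : ℕ) : ℤ) *
      ∏ j : Fin ((A + 1) * q), ((Z : ℤ) ^ ((j : ℕ) / q) * (T : ℤ) ^ ((j : ℕ) % q))
      < (p : ℤ) ^ (((A + 1) * q).choose 2) := by
  obtain ⟨s, hs⟩ : ∃ s, s = (A + 1) * q := ⟨_, rfl⟩
  have hs4 : 4 ≤ s := by rw [hs]; nlinarith
  have e1 : ∏ j : Fin ((A + 1) * q), ((Z : ℤ) ^ ((j : ℕ) / q) * (T : ℤ) ^ ((j : ℕ) % q))
      = ((Z ^ (∑ j ∈ range ((A + 1) * q), j / q) * T ^ (∑ j ∈ range ((A + 1) * q), j % q) : ℕ) : ℤ) := by
    rw [Finset.prod_mul_distrib, Fin.prod_univ_eq_prod_range (fun j => (Z : ℤ) ^ (j / q)),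
      Fin.prod_univ_eq_prod_range (fun j => (T : ℤ) ^ (j % q)), Finset.prod_pow_eq_pow_sum,
      Finset.prod_pow_eq_pow_sum]
    push_cast
    ring
  rw [e1]
  have hdiv := sum_div (q := q) (by omega) (A + 1)
  have hmod := sum_mod (q := q) (by omega) (A + 1)
  obtain ⟨D, hD⟩ : ∃ D, D = ∑ j ∈ range ((A + 1) * q), j / q := ⟨_, rfl⟩
  obtain ⟨M, hM⟩ : ∃ M, M = ∑ j ∈ range ((A + 1) * q), j % q := ⟨_, rfl⟩
  rw [← hD] at hdiv ⊢
  rw [← hM] at hmod ⊢
  rw [← hs] at hp ⊢
  have hch : 2 * s.choose 2 = s * (s - 1) := by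
    rw [Nat.choose_two_right]
    exact Nat.mul_div_cancel' (Nat.even_mul_pred_self s).two_dvd
  have key : (s.factorial * (Z ^ D * T ^ M)) ^ 2 < (p ^ (s.choose 2)) ^ 2 := by
    have h1 : (p ^ (s.choose 2)) ^ 2 = (p ^ s) ^ (s - 1) := by
      rw [← pow_mul, ← pow_mul, mul_comm _ 2, hch]
    have h2 : (s ^ s * Z ^ (A + 1) * T ^ q) ^ (s - 1) < (p ^ s) ^ (s - 1) :=
      Nat.pow_lt_pow_left hp (by omega)
    rw [h1]
    refine lt_of_le_of_lt ?_ h2
    rw [mul_pow, mul_pow (s ^ s * _), mul_pow (s ^ s)]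
    rw [mul_assoc]
    apply Nat.mul_le_mul
    · rw [← pow_mul]
      calc s.factorial ^ 2 ≤ (s ^ s) ^ 2 := Nat.pow_le_pow_left (Nat.factorial_le_pow s) 2
        _ = s ^ (s * 2) := by rw [← pow_mul]
        _ ≤ s ^ (s * (s - 1)) := Nat.pow_le_pow_right (by omega) (Nat.mul_le_mul_left _ (by omega))
    · rw [mul_pow]
      apply Nat.mul_le_mul
      · rw [← pow_mul, ← pow_mul]
        apply Nat.pow_le_pow_right hZ
        have h3 : D * 2 = q * ((A + 1) * A) := by
          rw [mul_comm, hdiv, Nat.add_sub_cancel]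
        rw [h3]
        have h4 : q * A ≤ s - 1 := by
          have : (A + 1) * q = q * A + q := by ring
          omega
        calc q * ((A + 1) * A) = (A + 1) * (q * A) := by ring
          _ ≤ (A + 1) * (s - 1) := Nat.mul_le_mul_left _ h4
      · rw [← pow_mul, ← pow_mul]
        apply Nat.pow_le_pow_right hT
        have h3 : M * 2 = (A + 1) * (q * (q - 1)) := by
          rw [mul_comm, hmod]
        rw [h3]
        have h4 : (A + 1) * (q - 1) ≤ s - 1 := by
          obtain ⟨r, rfl⟩ : ∃ r, q = r + 1 := ⟨q - 1, by omega⟩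
          have : (A + 1) * (r + 1) = (A + 1) * r + (A + 1) := by ring
          simp only [Nat.add_sub_cancel]
          omega
        calc (A + 1) * (q * (q - 1)) = q * ((A + 1) * (q - 1)) := by ring
          _ ≤ q * (s - 1) := Nat.mul_le_mul_left _ h4
  have h5 := lt_of_pow_lt_pow_left₀ 2 (Nat.zero_le _) key
  exact_mod_cast h5

end Pool.Agent.H55.BP
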