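import Pool.Agent.H55.BP.Cls

/-!
Choice of the primes.
-/

set_option autoImplicit false

open Polynomial Finset Matrix

namespace Pool.Agent.H55.BP

lemma exists_primes {P : ℕ} (hP : P ≠ 0) : ∃ f : ℕ → ℕ, ∀ i, (f i).Prime ∧ P < f i ∧
    f i ≤ 2 ^ (i + 1) * P ∧ f i < f (i + 1) := by
  have h : ∀ n : ℕ, ∃ p, n ≠ 0 → p.Prime ∧ n < p ∧ p ≤ 2 * n := by
    intro n
    by_cases hn : n = 0
    · exact ⟨0, fun h => absurd hn h⟩
    · obtain ⟨p, h1, h2, h3⟩ := Nat.exists_prime_lt_and_le_two_mul n hn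
      exact ⟨p, fun _ => ⟨h1, h2, h3⟩⟩
  choose g hg using h
  obtain ⟨f, hf0, hf⟩ : ∃ f : ℕ → ℕ, f 0 = g P ∧ ∀ i, f (i + 1) = g (f i) :=
    ⟨fun n => Nat.rec (g P) (fun _ x => g x) n, rfl, fun _ => rfl⟩
  have key : ∀ i, (f i).Prime ∧ P < f i ∧ f i ≤ 2 ^ (i + 1) * P := by
    intro i
    induction i with
    | zero =>
      rw [hf0]
      obtain ⟨h1, h2, h3⟩ := hg P hP
      exact ⟨h1, h2, by simpa using h3⟩
    | succ i ih =>
      obtain ⟨h1, h2, h3⟩ := hg (f i) ih.1.ne_zero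
      rw [hf i]
      refine ⟨h1, ih.2.1.trans h2, h3.trans ?_⟩
      calc 2 * f i ≤ 2 * (2 ^ (i + 1) * P) := Nat.mul_le_mul_left _ ih.2.2
        _ = 2 ^ (i + 1 + 1) * P := by ring
  refine ⟨f, fun i => ⟨(key i).1, (key i).2.1, (key i).2.2, ?_⟩⟩
  rw [hf i]
  exact (hg (f i) (key i).1.ne_zero).2.1

variable {U g : ℤ[X]} {d e q A : ℕ}

theorem sel_bound (hd : 1 ≤ d) (hU : U.natDegree = d) (hg : g.natDegree ≤ e) (hq : 2 ≤ q)
    (hA : 1 ≤ A) (hN : NoSmall U g q) {Z T P r : ℕ} (hZ : 1 ≤ Z) (hT : 1 ≤ T)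
    (hP : ((A + 1) * q) ^ ((A + 1) * q) * Z ^ (A + 1) * T ^ q < P ^ ((A + 1) * q))
    {κ : ℤ → ℤ} (S : Finset ℤ) (h1 : ∀ z ∈ S, |z| ≤ Z) (h2 : ∀ z ∈ S, |κ z| ≤ T)
    (h3 : ∀ z ∈ S, U.eval (κ z) = g.eval z)
    (h4 : ∀ z ∈ S, U.derivative.eval (κ z) ≠ 0)
    (h5 : ∀ z ∈ S, (U.derivative.eval (κ z)).natAbs < P ^ r) :
    S.card ≤ r * ((d + (q - 1)) * max e A * (2 ^ r * P * d)) := by
  classical
  have hP0 : P ≠ 0 := by
    rintro rfl
    rw [zero_pow (by positivity)] at hP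
    omega
  obtain ⟨f, hf⟩ := exists_primes hP0
  have hmono : StrictMono f := strictMono_nat_of_lt_succ fun i => (hf i).2.2.2
  have hcov : S ⊆ (range r).biUnion fun i => S.filter fun z =>
      ¬ ((f i : ℕ) : ℤ) ∣ U.derivative.eval (κ z) := by
    intro z hz
    rw [Finset.mem_biUnion]
    by_contra hcon
    push Not at hcon
    have h6 : ∀ i ∈ range r, f i ∣ (U.derivative.eval (κ z)).natAbs := by
      intro i hi
      have h7 := hcon i hi
      rw [Finset.mem_filter] at h7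
      push Not at h7
      have h8 := h7 hz
      exact Int.natCast_dvd.1 h8
    have h7 : ∏ p ∈ (range r).image f, p ∣ (U.derivative.eval (κ z)).natAbs := by
      apply Finset.prod_primes_dvd
      · intro a ha
        obtain ⟨i, _, rfl⟩ := Finset.mem_image.1 ha
        exact Nat.prime_iff.1 (hf i).1
      · intro a ha
        obtain ⟨i, hi, rfl⟩ := Finset.mem_image.1 ha
        exact h6 i hi
    rw [Finset.prod_image (fun i _ j _ h => hmono.injective h)] at h7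
    have h8 := Nat.le_of_dvd (Int.natAbs_pos.2 (h4 z hz)) h7
    have h9 : P ^ r ≤ ∏ i ∈ range r, f i := by
      calc P ^ r = ∏ _i ∈ range r, P := by simp
        _ ≤ _ := Finset.prod_le_prod' fun i _ => (hf i).2.1.le
    have := h5 z hz
    omega
  refine (Finset.card_le_card hcov).trans (Finset.card_biUnion_le.trans ?_)
  refine (Finset.sum_le_card_nsmul _ _ ((d + (q - 1)) * max e A * (2 ^ r * P * d)) ?_).trans ?_
  · intro i hi
    rw [Finset.mem_range] at hi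
    have hpi : ((A + 1) * q) ^ ((A + 1) * q) * Z ^ (A + 1) * T ^ q < f i ^ ((A + 1) * q) :=
      lt_of_lt_of_le hP (Nat.pow_le_pow_left (hf i).2.1.le _)
    have hsz := size_cond hq hA hZ hT hpi
    refine (class_bound hd hU hg (by omega) hN rfl (hf i).1 (Z := Z) (T := T) (κ := κ) hsz _
      (fun z hz => h1 z (Finset.mem_filter.1 hz).1) (fun z hz => h2 z (Finset.mem_filter.1 hz).1)
      (fun z hz => h3 z (Finset.mem_filter.1 hz).1)
      (fun z hz => (Finset.mem_filter.1 hz).2)).trans ?_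
    apply Nat.mul_le_mul_left
    apply Nat.mul_le_mul_right
    calc f i ≤ 2 ^ (i + 1) * P := (hf i).2.2.1
      _ ≤ 2 ^ r * P := Nat.mul_le_mul_right _ (Nat.pow_le_pow_right (by norm_num) (by omega))
  · rw [Finset.card_range, smul_eq_mul]

end Pool.Agent.H55.BP
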