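import Pool.Agent.H55.BP.Fin
import Pool.Agent.H55.BP.Deg

/-!
# A union of curves `U k = g z`

The bound of `Fin.lean` for a finite family of polynomials `U`, each of degree `d` or constant.
-/

open Polynomial

namespace Pool.Agent.H55.BP

/-- a height bound is at least one -/
lemma one_le_height {g : ℤ[X]} {e H : ℕ} (he : 1 ≤ e) (hg : g.natDegree = e)
    (hH : ∀ i, |g.coeff i| ≤ H) : 1 ≤ H := by
  have h1 : g.leadingCoeff ≠ 0 := by
    rw [Ne, leadingCoeff_eq_zero]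
    rintro rfl
    simp at hg
    omega
  have h2 := hH g.natDegree
  have h3 : 1 ≤ |g.coeff g.natDegree| := Int.one_le_abs h1
  have h4 : (1 : ℤ) ≤ H := h3.trans h2
  exact_mod_cast h4

/-- **A finite family of curves.** -/
theorem bp_family (d e q : ℕ) (hd : 1 ≤ d) (he : 1 ≤ e) (hq : 2 ≤ q) (ε : ℝ) (hε : 0 < ε) :
    ∃ K : ℝ, 0 < K ∧ ∀ g : ℤ[X], g.natDegree = e → ∀ z₀ : ℤ,
      (∀ U : ℤ[X], U.natDegree = d → NoSmall U (g.comp (X + C z₀)) q) →
      ∀ H Z : ℕ, (∀ i, |g.coeff i| ≤ H) → 1 ≤ Z →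
      ∀ (L : ℕ) (T : Finset ℤ[X]), T.card ≤ L → (∀ U ∈ T, U.natDegree = d ∨ U.natDegree = 0) →
      ∀ S : Finset ℤ, (∀ z ∈ S, z₀ ≤ z ∧ z ≤ z₀ + Z) →
        (∀ z ∈ S, ∃ U ∈ T, ∃ k, U.eval k = g.eval z) →
        (S.card : ℝ) ≤ L * K * ((H : ℝ) * (|(z₀ : ℝ)| + Z)) ^ ε * (Z : ℝ) ^ (1 / (q : ℝ)) := by
  classical
  obtain ⟨K, hK, hmain⟩ := bp_interval d e q hd he hq ε hε
  refine ⟨K + e, by positivity, ?_⟩
  intro g hg z₀ hN H Z hH hZ L T hT1 hT2 S hS1 hS2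
  have hHR : (1 : ℝ) ≤ H := by exact_mod_cast one_le_height he hg hH
  have hZR : (1 : ℝ) ≤ Z := by exact_mod_cast hZ
  have hbig : (1 : ℝ) ≤ ((H : ℝ) * (|(z₀ : ℝ)| + Z)) ^ ε := by
    apply Real.one_le_rpow _ hε.le
    nlinarith [abs_nonneg (z₀ : ℝ)]
  have hbig2 : (1 : ℝ) ≤ (Z : ℝ) ^ (1 / (q : ℝ)) := Real.one_le_rpow hZR (by positivity)
  have hone : ∀ U ∈ T, ((S.filter fun z => ∃ k, U.eval k = g.eval z).card : ℝ)
      ≤ (K + e) * ((H : ℝ) * (|(z₀ : ℝ)| + Z)) ^ ε * (Z : ℝ) ^ (1 / (q : ℝ)) := by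
    intro U hU
    rcases hT2 U hU with h1 | h1
    · refine (hmain g hg z₀ hN U h1 H Z hH hZ _ ?_ ?_).trans ?_
      · intro z hz
        exact hS1 z (Finset.mem_filter.1 hz).1
      · intro z hz
        exact (Finset.mem_filter.1 hz).2
      · apply mul_le_mul_of_nonneg_right _ (by positivity)
        apply mul_le_mul_of_nonneg_right _ (by positivity)
        linarith [Nat.cast_nonneg (α := ℝ) e]
    · rw [natDegree_eq_zero] at h1
      obtain ⟨c, rfl⟩ := h1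
      have h2 : (S.filter fun z => ∃ k, (C c).eval k = g.eval z).card ≤ e := by
        apply card_value_le hg he c
        intro z hz
        obtain ⟨k, hk⟩ := (Finset.mem_filter.1 hz).2
        rw [eval_C] at hk
        exact hk.symm
      have h3 : ((S.filter fun z => ∃ k, (C c).eval k = g.eval z).card : ℝ) ≤ e := by
        exact_mod_cast h2
      refine h3.trans ?_
      have h4 : (1 : ℝ) ≤ ((H : ℝ) * (|(z₀ : ℝ)| + Z)) ^ ε * (Z : ℝ) ^ (1 / (q : ℝ)) :=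
        one_le_mul_of_one_le_of_one_le hbig hbig2
      calc (e : ℝ) ≤ (K + e) * 1 := by linarith
        _ ≤ (K + e) * (((H : ℝ) * (|(z₀ : ℝ)| + Z)) ^ ε * (Z : ℝ) ^ (1 / (q : ℝ))) :=
          mul_le_mul_of_nonneg_left h4 (by positivity)
        _ = _ := by ring
  have hsub : S ⊆ T.biUnion fun U => S.filter fun z => ∃ k, U.eval k = g.eval z := by
    intro z hz
    obtain ⟨U, hU, k, hk⟩ := hS2 z hz
    rw [Finset.mem_biUnion]
    exact ⟨U, hU, Finset.mem_filter.2 ⟨hz, k, hk⟩⟩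
  have h5 : (S.card : ℝ) ≤ ∑ U ∈ T, ((S.filter fun z => ∃ k, U.eval k = g.eval z).card : ℝ) := by
    have := (Finset.card_le_card hsub).trans Finset.card_biUnion_le
    exact_mod_cast this
  refine h5.trans ((Finset.sum_le_card_nsmul _ _ _ hone).trans ?_)
  rw [nsmul_eq_mul]
  have hT1R : (T.card : ℝ) ≤ L := by exact_mod_cast hT1
  calc (T.card : ℝ) * ((K + e) * ((H : ℝ) * (|(z₀ : ℝ)| + Z)) ^ ε * (Z : ℝ) ^ (1 / (q : ℝ)))
      ≤ L * ((K + e) * ((H : ℝ) * (|(z₀ : ℝ)| + Z)) ^ ε * (Z : ℝ) ^ (1 / (q : ℝ))) :=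
        mul_le_mul_of_nonneg_right hT1R (by positivity)
    _ = _ := by ring

end Pool.Agent.H55.BP
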